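import Pool.Agent.Helper2.E8C.Fun4

/-!
# The functional of a weight on a shell
-/

set_option autoImplicit false

open MeasureTheory MvPolynomial
open scoped RealInnerProductSpace

namespace Pool.Agent.Helper2.E8C

open Pool.Agent.Q10.E8

/-- the real vector of doubled coordinates -/
noncomputable def hv (v : Fin 8 → ℤ) : Fin 8 → ℝ := fun i => (v i : ℝ) / 2

/-- the point of the sphere of squared radius `2 m` -/
noncomputable def su (m : ℕ) (u : S7) : Fin 8 → ℝ := fun i => Real.sqrt (2 * (m : ℝ)) * (u : E) i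

lemma cont_su (m : ℕ) : Continuous (su m) := by
  unfold su
  refine continuous_pi fun i => ?_
  exact continuous_const.mul (cont_coord i)

lemma cont_ev (m : ℕ) (p : P8) : Continuous (fun u : S7 => eval (su m u) p) :=
  (MvPolynomial.continuous_eval p).comp (cont_su m)

/-- the functional whose vanishing is the cubature formula -/
noncomputable def Lw (m : ℕ) (w : (Fin 8 → ℤ) → ℝ) : P8 →ₗ[ℝ] ℝ where
  toFun p := (∑ v ∈ shell m, w v * eval (hv v) p) * sg.real Set.univ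
    - (∑ v ∈ shell m, w v) * ∫ u, eval (su m u) p ∂sg
  map_add' p q := by
    simp only [map_add, mul_add, Finset.sum_add_distrib, add_mul]
    rw [integral_add (integrable_cont _ (cont_ev m p)) (integrable_cont _ (cont_ev m q))]
    ring
  map_smul' r p := by
    simp only [smul_eval, RingHom.id_apply, smul_eq_mul]
    rw [integral_const_mul]
    have : ∀ v ∈ shell m, w v * (r * eval (hv v) p) = r * (w v * eval (hv v) p) := fun v _ => by ring
    rw [Finset.sum_congr rfl this, ← Finset.mul_sum]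
    ring

lemma Lw_apply (m : ℕ) (w : (Fin 8 → ℤ) → ℝ) (p : P8) :
    Lw m w p = (∑ v ∈ shell m, w v * eval (hv v) p) * sg.real Set.univ
      - (∑ v ∈ shell m, w v) * ∫ u, eval (su m u) p ∂sg := rfl

lemma cub_iff (t m : ℕ) (w : (Fin 8 → ℤ) → ℝ) :
    Cubature t m (shell m) w ↔ ∀ p : P8, p.totalDegree ≤ t → Lw m w p = 0 := by
  unfold Cubature
  refine forall_congr' fun p => imp_congr_right fun _ => ?_
  rw [Lw_apply, sub_eq_zero]
  rfl

lemma mkR (G : (Fin 8 → ℝ) →ₗ[ℝ] (Fin 8 → ℝ)) (hG : ∀ x, ∑ i, (G x i) ^ 2 = ∑ i, (x i) ^ 2) :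
    ∃ R : E ≃ₗᵢ[ℝ] E, ∀ (x : E) (i : Fin 8), (R x) i = G x.ofLp i := by
  let T : E →ₗ[ℝ] E := (WithLp.linearEquiv 2 ℝ (Fin 8 → ℝ)).symm.toLinearMap ∘ₗ G ∘ₗ
    (WithLp.linearEquiv 2 ℝ (Fin 8 → ℝ)).toLinearMap
  have hT : ∀ (x : E) (i : Fin 8), (T x) i = G x.ofLp i := fun x i => rfl
  have hn : ∀ x, ‖T x‖ = ‖x‖ := by
    intro x
    rw [EuclideanSpace.norm_eq, EuclideanSpace.norm_eq]
    congr 1
    simp only [Real.norm_eq_abs, sq_abs]
    have := hG x.ofLp
    rw [← this]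
    rfl
  let li : E →ₗᵢ[ℝ] E := ⟨T, hn⟩
  refine ⟨li.toLinearIsometryEquiv rfl, fun x i => ?_⟩
  rw [LinearIsometry.toLinearIsometryEquiv_apply]
  exact hT x i

lemma sym {m : ℕ} {w : (Fin 8 → ℤ) → ℝ} (g : (Fin 8 → ℤ) → (Fin 8 → ℤ)) (hg : IsAut g)
    (G : (Fin 8 → ℝ) →ₗ[ℝ] (Fin 8 → ℝ)) (hG : ∀ x, ∑ i, (G x i) ^ 2 = ∑ i, (x i) ^ 2)
    (φ : P8 → P8) (h1 : ∀ v, IsE8 v → hv (g v) = G (hv v)) (h3 : ∀ x p, eval (G x) p = eval x (φ p))
    (hw : ∀ v ∈ shell m, w (g v) = w v) (p : P8) : Lw m w (φ p) = Lw m w p := by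
  obtain ⟨R, hR⟩ := mkR G hG
  have e1 : ∑ v ∈ shell m, w v * eval (hv v) (φ p) = ∑ v ∈ shell m, w v * eval (hv v) p := by
    refine Finset.sum_nbij g ?_ ?_ ?_ ?_
    · intro r hr
      rw [mem_shell] at hr ⊢
      exact (aut_shell hg hr.1).mpr hr
    · intro a ha b hb hab
      rw [Finset.mem_coe, mem_shell] at ha hb
      exact hg.1.injOn ha.1 hb.1 hab
    · intro r hr
      rw [Finset.mem_coe, mem_shell] at hr
      obtain ⟨s, hs, rfl⟩ := hg.1.surjOn hr.1
      refine ⟨s, ?_, rfl⟩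
      rw [Finset.mem_coe, mem_shell]
      exact (aut_shell hg hs).mp hr
    · intro r hr
      rw [hw r hr, h1 r ((mem_shell m r).1 hr).1, h3]
  have e2 : ∫ u, eval (su m u) (φ p) ∂sg = ∫ u, eval (su m u) p ∂sg := by
    rw [← integral_rot R (fun u => eval (su m u) p) (cont_ev m p)]
    refine integral_congr_ae (Filter.Eventually.of_forall fun u => ?_)
    show eval (su m u) (φ p) = eval (su m (rot R u)) p
    rw [← h3]
    congr 2
    have : su m (rot R u) = fun i => Real.sqrt (2 * (m : ℝ)) * G (u : E).ofLp i := by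
      funext i
      show Real.sqrt (2 * (m : ℝ)) * (R (u : E)) i = _
      rw [hR]
    rw [this]
    have h4 : su m u = Real.sqrt (2 * (m : ℝ)) • (u : E).ofLp := rfl
    rw [h4, map_smul]
    rfl
  rw [Lw_apply, Lw_apply, e1, e2]

lemma eval_aeval' (x : Fin 8 → ℝ) (f : Fin 8 → P8) (p : P8) :
    eval x (aeval f p) = eval (fun k => eval x (f k)) p := by
  induction p using MvPolynomial.induction_on with
  | C a => simp
  | add p q hp hq => rw [map_add, map_add, map_add, hp, hq]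
  | mul_X p i hp => rw [map_mul, map_mul, map_mul, hp, aeval_X, eval_X]

lemma Lw_one (m : ℕ) (w : (Fin 8 → ℤ) → ℝ) : Lw m w 1 = 0 := by
  rw [Lw_apply]
  simp only [map_one, mul_one]
  rw [integral_const]
  simp

lemma Lw_nrm (m : ℕ) (w : (Fin 8 → ℤ) → ℝ) (p : P8) :
    Lw m w ((∑ i, X i ^ 2) * p) = (2 * (m : ℝ)) * Lw m w p := by
  rw [Lw_apply, Lw_apply]
  have e1 : ∀ v ∈ shell m, w v * eval (hv v) ((∑ i, X i ^ 2) * p) = (2 * (m : ℝ)) * (w v * eval (hv v) p) := by
    intro v hvm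
    rw [mem_shell] at hvm
    have h2 : (∑ i, (v i : ℝ) ^ 2) = 8 * (m : ℝ) := by exact_mod_cast hvm.2
    rw [map_mul, map_sum]
    simp only [map_pow, eval_X]
    have h3 : ∑ i, (hv v i) ^ 2 = 2 * (m : ℝ) := by
      unfold hv
      simp only [div_pow]
      rw [← Finset.sum_div, h2]
      ring
    rw [h3]
    ring
  have e2 : ∀ u : S7, eval (su m u) ((∑ i, X i ^ 2) * p) = (2 * (m : ℝ)) * eval (su m u) p := by
    intro u
    rw [map_mul, map_sum]
    simp only [map_pow, eval_X]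
    have h3 : ∑ i, (su m u i) ^ 2 = 2 * (m : ℝ) := by
      unfold su
      simp only [mul_pow]
      rw [← Finset.mul_sum, sum_sq u, Real.sq_sqrt (by positivity), mul_one]
    rw [h3]
  rw [Finset.sum_congr rfl e1, ← Finset.mul_sum]
  simp only [e2]
  rw [integral_const_mul]
  ring

end Pool.Agent.Helper2.E8C
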