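import Pool.Agent.Helper2.E8C.Asm1

/-!
# The invariance of the functional
-/

set_option autoImplicit false

open MeasureTheory MvPolynomial
open scoped RealInnerProductSpace

namespace Pool.Agent.Helper2.E8C

open Pool.Agent.Q10.E8

/-- permutation of the coordinates -/
noncomputable def Gp (σ : Equiv.Perm (Fin 8)) : (Fin 8 → ℝ) →ₗ[ℝ] (Fin 8 → ℝ) where
  toFun x := x ∘ σ
  map_add' _ _ := rfl
  map_smul' _ _ := rfl

/-- change of two signs -/
noncomputable def Gf (i j : Fin 8) : (Fin 8 → ℝ) →ₗ[ℝ] (Fin 8 → ℝ) where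
  toFun x := fun k => if k = i ∨ k = j then - x k else x k
  map_add' x y := by
    funext k
    simp only [Pi.add_apply]
    split_ifs <;> ring
  map_smul' r x := by
    funext k
    simp only [Pi.smul_apply, smul_eq_mul, RingHom.id_apply]
    split_ifs <;> ring

/-- the product of two reflections -/
noncomputable def Gq : (Fin 8 → ℝ) →ₗ[ℝ] (Fin 8 → ℝ) where
  toFun x := fun k => if k.val < 4 then x k - (1 / 2) * (x 0 + x 1 + x 2 + x 3)
    else x k - (1 / 2) * (x 4 + x 5 + x 6 + x 7)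
  map_add' x y := by
    funext k
    simp only [Pi.add_apply]
    split_ifs <;> ring
  map_smul' r x := by
    funext k
    simp only [Pi.smul_apply, smul_eq_mul, RingHom.id_apply]
    split_ifs <;> ring

lemma Gq_apply (x : Fin 8 → ℝ) (k : Fin 8) : Gq x k = if k.val < 4 then x k - (1 / 2) * (x 0 + x 1 + x 2 + x 3)
    else x k - (1 / 2) * (x 4 + x 5 + x 6 + x 7) := rfl

lemma Gp_norm (σ : Equiv.Perm (Fin 8)) (x : Fin 8 → ℝ) : ∑ i, (Gp σ x i) ^ 2 = ∑ i, (x i) ^ 2 :=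
  Equiv.sum_comp σ (fun i => (x i) ^ 2)

lemma Gf_norm (i j : Fin 8) (x : Fin 8 → ℝ) : ∑ k, (Gf i j x k) ^ 2 = ∑ k, (x k) ^ 2 := by
  refine Finset.sum_congr rfl fun k _ => ?_
  show (if k = i ∨ k = j then - x k else x k) ^ 2 = x k ^ 2
  split_ifs <;> ring

lemma Gq_norm (x : Fin 8 → ℝ) : ∑ k, (Gq x k) ^ 2 = ∑ k, (x k) ^ 2 := by
  simp only [Fin.sum_univ_eight, Gq_apply]
  rw [if_pos (by decide), if_pos (by decide), if_pos (by decide), if_pos (by decide),
    if_neg (by decide), if_neg (by decide), if_neg (by decide), if_neg (by decide)]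
  ring

lemma gq_even (v : Fin 8 → ℤ) (h : IsE8 v) :
    ((((v 0 + v 1 + v 2 + v 3) / 2 : ℤ)) : ℝ) = ((v 0 : ℝ) + v 1 + v 2 + v 3) / 2 ∧
    ((((v 4 + v 5 + v 6 + v 7) / 2 : ℤ)) : ℝ) = ((v 4 : ℝ) + v 5 + v 6 + v 7) / 2 := by
  have p1 := h.1 1 0
  have p2 := h.1 2 0
  have p3 := h.1 3 0
  have p4 := h.1 4 0
  have p5 := h.1 5 0
  have p6 := h.1 6 0
  have p7 := h.1 7 0
  obtain ⟨a, ha⟩ : ∃ a, v 0 + v 1 + v 2 + v 3 = 2 * a := ⟨(v 0 + v 1 + v 2 + v 3) / 2, by omega⟩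
  obtain ⟨b, hb⟩ : ∃ a, v 4 + v 5 + v 6 + v 7 = 2 * a := ⟨(v 4 + v 5 + v 6 + v 7) / 2, by omega⟩
  have ha' : ((v 0 : ℝ) + v 1 + v 2 + v 3) = 2 * a := by exact_mod_cast ha
  have hb' : ((v 4 : ℝ) + v 5 + v 6 + v 7) = 2 * b := by exact_mod_cast hb
  rw [ha, hb, ha', hb', Int.mul_ediv_cancel_left _ (by norm_num), Int.mul_ediv_cancel_left _ (by norm_num)]
  constructor <;> ring

lemma hv_gq (v : Fin 8 → ℤ) (h : IsE8 v) : hv (gq v) = Gq (hv v) := by
  obtain ⟨h1, h2⟩ := gq_even v h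
  funext k
  rw [Gq_apply]
  unfold hv gq
  split_ifs with hk
  · push_cast
    rw [h1]
    ring
  · push_cast
    rw [h2]
    ring

/-- `w` is invariant on the shell. -/
def Inv (m : ℕ) (w : (Fin 8 → ℤ) → ℝ) : Prop := ∀ g, IsAut g → ∀ v ∈ shell m, w (g v) = w v

lemma good (hA : S_AUT) {m : ℕ} {w : (Fin 8 → ℤ) → ℝ} (hw : Inv m w) : Good (Lw m w) (2 * (m : ℝ)) where
  perm := by
    intro σ p
    refine sym (fun v => v ∘ σ) (hA.1 σ) (Gp σ) (Gp_norm σ) (rename σ) (fun v _ => rfl) ?_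
      (hw _ (hA.1 σ)) p
    intro x p
    rw [eval_rename]
    rfl
  flp := by
    intro i j hij p
    refine sym (flip i j) (hA.2.1 i j hij) (Gf i j) (Gf_norm i j) (aeval (fX i j)) ?_ ?_
      (hw _ (hA.2.1 i j hij)) p
    · intro v _
      funext k
      show ((if k = i ∨ k = j then - v k else v k : ℤ) : ℝ) / 2 =
        if k = i ∨ k = j then - ((v k : ℝ) / 2) else (v k : ℝ) / 2
      split_ifs
      · push_cast
        ring
      · rfl
    · intro x p
      rw [eval_aeval']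
      congr 2
      funext k
      show (if k = i ∨ k = j then - x k else x k) = eval x (if k = i ∨ k = j then - X k else X k)
      split_ifs <;> simp
  g := by
    intro p
    refine sym gq hA.2.2 Gq Gq_norm (aeval gX) hv_gq ?_ (hw _ hA.2.2) p
    intro x p
    rw [eval_aeval']
    congr 2
    funext k
    rw [Gq_apply]
    unfold gX
    split_ifs <;> simp
  nrm := Lw_nrm m w
  one := Lw_one m w

lemma cub7 (hA : S_AUT) {m : ℕ} {w : (Fin 8 → ℤ) → ℝ} (hw : Inv m w) : Cubature 7 m (shell m) w := by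
  rw [cub_iff]
  exact fun p hp => all_poly (good hA hw) 7 (Or.inl le_rfl) p hp

lemma cub11 (hA : S_AUT) {m : ℕ} {w : (Fin 8 → ℤ) → ℝ} (hw : Inv m w)
    (h8 : Lw m w ((X 0 + X 1) ^ 8) = 0) : Cubature 11 m (shell m) w := by
  rw [cub_iff]
  exact fun p hp => all_poly (good hA hw) 11 (Or.inr ⟨le_rfl, h8⟩) p hp

/-- the lower moments of the roots -/
theorem t_RM (hA : S_AUT) : S_RM := by
  intro m v hv
  have hc : Cubature 7 1 (shell 1) (fun _ => 1) := cub7 hA (fun g _ v _ => rfl)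
  set z : E := (WithLp.toLp 2 fun i => (v i : ℝ) / 2) with hz
  have hzi : ∀ i, z i = (v i : ℝ) / 2 := fun i => rfl
  have hnorm : ‖z‖ ^ 2 = 2 * m := by
    rw [EuclideanSpace.norm_sq_eq]
    have : ∀ i, ‖z i‖ ^ 2 = (v i : ℝ) ^ 2 / 4 := by
      intro i
      rw [hzi, Real.norm_eq_abs, sq_abs]; ring
    rw [Finset.sum_congr rfl fun i _ => this i, ← Finset.sum_div]
    have h2 : ∑ i, (v i : ℝ) ^ 2 = 8 * m := by exact_mod_cast hv.2
    rw [h2]; ring
  have hV := vol_pos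
  obtain ⟨m2, m4, m6, -⟩ := moments z
  have hsq : Real.sqrt (2 * ((1 : ℕ) : ℝ)) ^ 2 = 2 := by
    rw [Real.sq_sqrt (by positivity)]
    norm_num
  have s4 : Real.sqrt (2 * ((1 : ℕ) : ℝ)) ^ 4 = 4 := by
    rw [show ∀ x : ℝ, x ^ 4 = (x ^ 2) ^ 2 from fun x => by ring, hsq]; norm_num
  have s6 : Real.sqrt (2 * ((1 : ℕ) : ℝ)) ^ 6 = 8 := by
    rw [show ∀ x : ℝ, x ^ 6 = (x ^ 2) ^ 3 from fun x => by ring, hsq]; norm_num
  have n4 : ‖z‖ ^ 4 = (2 * m) ^ 2 := by rw [← hnorm]; ring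
  have n6 : ‖z‖ ^ 6 = (2 * m) ^ 3 := by rw [← hnorm]; ring
  have key : ∀ k, k ≤ 7 → ((∑ r ∈ shell 1, pr v r ^ k : ℤ) : ℝ) * sg.real Set.univ
      = 240 * (Real.sqrt (2 * ((1 : ℕ) : ℝ)) ^ k * F k z) := by
    intro k hk
    have h1 := moment hc z k hk
    have h2 : ∑ v ∈ shell 1, (1 : ℝ) = 240 := by
      rw [Finset.sum_const, card_roots]
      norm_num
    rw [h2] at h1
    have h5 : ((∑ r ∈ shell 1, pr v r ^ k : ℤ) : ℝ) =
        ∑ r ∈ shell 1, (1 : ℝ) * (∑ i, z i * ((r i : ℝ) / 2)) ^ k := by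
      rw [Int.cast_sum]
      refine Finset.sum_congr rfl fun r hr => ?_
      rw [Int.cast_pow]
      rw [mem_shell] at hr
      rw [aux_z (Y := {r}) (by simpa using hr.1) v hv.1 r (by simp), one_mul]
      have : pr r v = pr v r := by
        unfold pr
        simp only [mul_comm]
      rw [this]
    rw [h5]
    exact h1
  have k2 := key 2 (by norm_num)
  have k4 := key 4 (by norm_num)
  have k6 := key 6 (by norm_num)
  rw [m2, hsq, hnorm] at k2
  rw [m4, s4, n4] at k4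
  rw [m6, s6, n6] at k6
  generalize sg.real Set.univ = V at hV k2 k4 k6
  have r2 : ((∑ r ∈ shell 1, pr v r ^ 2 : ℤ) : ℝ) = 120 * (m : ℝ) := by
    apply mul_right_cancel₀ hV.ne'
    linear_combination k2
  have r4 : ((∑ r ∈ shell 1, pr v r ^ 4 : ℤ) : ℝ) = 144 * (m : ℝ) ^ 2 := by
    apply mul_right_cancel₀ hV.ne'
    linear_combination k4
  have r6 : ((∑ r ∈ shell 1, pr v r ^ 6 : ℤ) : ℝ) = 240 * (m : ℝ) ^ 3 := by
    apply mul_right_cancel₀ hV.ne'
    linear_combination k6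
  exact ⟨by exact_mod_cast r2, by exact_mod_cast r4, by exact_mod_cast r6⟩

end Pool.Agent.Helper2.E8C
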