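import Pool.Agent.Helper2.E8C.Asm2

/-!
# Cubature formulas from invariant weights
-/

set_option autoImplicit false

open MeasureTheory MvPolynomial
open scoped RealInnerProductSpace

namespace Pool.Agent.Helper2.E8C

open Pool.Agent.Q10.E8

/-- half of an integral vector, in Euclidean space -/
noncomputable def zz (r : Fin 8 → ℤ) : E := WithLp.toLp 2 fun i => (r i : ℝ) / 2

lemma zz_apply (r : Fin 8 → ℤ) (i : Fin 8) : zz r i = (r i : ℝ) / 2 := rfl

/-- the functional at the eighth power of the linear form of `r` -/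
noncomputable def TT (m : ℕ) (w : (Fin 8 → ℤ) → ℝ) (r : Fin 8 → ℤ) : ℝ := Lw m w (lin (zz r) ^ 8)

lemma TT_perm (hA : S_AUT) {m : ℕ} {w : (Fin 8 → ℤ) → ℝ} (hw : Inv m w) (σ : Equiv.Perm (Fin 8))
    (v : Fin 8 → ℤ) : TT m w (v ∘ σ) = TT m w v := by
  have hp : rename σ (lin (zz (v ∘ σ))) = lin (zz v) := by
    apply MvPolynomial.funext
    intro x
    rw [eval_rename, eval_lin, eval_lin]
    simp only [zz_apply, Function.comp]
    exact Equiv.sum_comp σ (fun i => (v i : ℝ) / 2 * x i)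
  have hp8 : rename σ (lin (zz (v ∘ σ)) ^ 8) = lin (zz v) ^ 8 := by rw [map_pow, hp]
  have h := (good hA hw).perm σ (lin (zz (v ∘ σ)) ^ 8)
  rw [hp8] at h
  exact h.symm

lemma TT_flip (hA : S_AUT) {m : ℕ} {w : (Fin 8 → ℤ) → ℝ} (hw : Inv m w) (i j : Fin 8) (hij : i ≠ j)
    (v : Fin 8 → ℤ) : TT m w (flip i j v) = TT m w v := by
  have hp : aeval (fX i j) (lin (zz v)) = lin (zz (flip i j v)) := by
    apply MvPolynomial.funext
    intro x
    rw [eval_aeval', eval_lin, eval_lin]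
    refine Finset.sum_congr rfl fun k _ => ?_
    rw [zz_apply, zz_apply]
    unfold flip fX
    split_ifs
    · simp
      ring
    · simp
  have hp8 : aeval (fX i j) (lin (zz v) ^ 8) = lin (zz (flip i j v)) ^ 8 := by rw [map_pow, hp]
  have h := (good hA hw).flp i j hij (lin (zz v) ^ 8)
  rw [hp8] at h
  exact h

lemma TT_gq (hA : S_AUT) {m : ℕ} {w : (Fin 8 → ℤ) → ℝ} (hw : Inv m w)
    (v : Fin 8 → ℤ) (hv8 : IsE8 v) : TT m w (gq v) = TT m w v := by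
  have hp : aeval gX (lin (zz v)) = lin (zz (gq v)) := by
    apply MvPolynomial.funext
    intro x
    rw [eval_aeval', eval_lin, eval_lin]
    have h1 : ∀ k, eval x (gX k) = Gq x k := by
      intro k
      rw [Gq_apply]
      unfold gX
      split_ifs <;> simp
    simp only [h1]
    have h2 : ∀ k, zz (gq v) k = Gq (hv v) k := by
      intro k
      have := congrFun (hv_gq v hv8) k
      rw [← this]
      rfl
    have h3 : ∀ k, zz v k = hv v k := fun k => rfl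
    simp only [h2, h3, Fin.sum_univ_eight]
    have g0 : ∀ y : Fin 8 → ℝ, Gq y 0 = y 0 - (1 / 2) * (y 0 + y 1 + y 2 + y 3) := fun y => rfl
    have g1 : ∀ y : Fin 8 → ℝ, Gq y 1 = y 1 - (1 / 2) * (y 0 + y 1 + y 2 + y 3) := fun y => rfl
    have g2 : ∀ y : Fin 8 → ℝ, Gq y 2 = y 2 - (1 / 2) * (y 0 + y 1 + y 2 + y 3) := fun y => rfl
    have g3 : ∀ y : Fin 8 → ℝ, Gq y 3 = y 3 - (1 / 2) * (y 0 + y 1 + y 2 + y 3) := fun y => rfl
    have g4 : ∀ y : Fin 8 → ℝ, Gq y 4 = y 4 - (1 / 2) * (y 4 + y 5 + y 6 + y 7) := fun y => rfl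
    have g5 : ∀ y : Fin 8 → ℝ, Gq y 5 = y 5 - (1 / 2) * (y 4 + y 5 + y 6 + y 7) := fun y => rfl
    have g6 : ∀ y : Fin 8 → ℝ, Gq y 6 = y 6 - (1 / 2) * (y 4 + y 5 + y 6 + y 7) := fun y => rfl
    have g7 : ∀ y : Fin 8 → ℝ, Gq y 7 = y 7 - (1 / 2) * (y 4 + y 5 + y 6 + y 7) := fun y => rfl
    rw [g0, g1, g2, g3, g4, g5, g6, g7, g0, g1, g2, g3, g4, g5, g6, g7]
    ring
  have hp8 : aeval gX (lin (zz v) ^ 8) = lin (zz (gq v)) ^ 8 := by rw [map_pow, hp]
  have h := (good hA hw).g (lin (zz v) ^ 8)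
  rw [hp8] at h
  exact h

lemma norm_zz {m : ℕ} {v : Fin 8 → ℤ} (h : InShell m v) : ‖zz v‖ ^ 2 = 2 * m := by
  rw [EuclideanSpace.norm_sq_eq]
  have : ∀ i, ‖zz v i‖ ^ 2 = (v i : ℝ) ^ 2 / 4 := by
    intro i
    rw [zz_apply, Real.norm_eq_abs, sq_abs]; ring
  rw [Finset.sum_congr rfl fun i _ => this i, ← Finset.sum_div]
  have h2 : ∑ i, (v i : ℝ) ^ 2 = 8 * m := by exact_mod_cast h.2
  rw [h2]; ring

lemma TT_root (m : ℕ) (w : (Fin 8 → ℤ) → ℝ) {r : Fin 8 → ℤ} (hr : InShell 1 r) :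
    TT m w r = (∑ v ∈ shell m, w v * (pr v r : ℝ) ^ 8) * sg.real Set.univ
      - (∑ v ∈ shell m, w v) * (2 * (m : ℝ) ^ 4 * sg.real Set.univ) := by
  unfold TT
  rw [Lw_apply]
  have e1 : ∀ v ∈ shell m, w v * eval (hv v) (lin (zz r) ^ 8) = w v * (pr v r : ℝ) ^ 8 := by
    intro v hvm
    rw [map_pow, eval_lin]
    have := aux_z (Y := shell m) (fun v h => ((mem_shell m v).1 h).1) r hr.1 v hvm
    rw [show ∑ i, (zz r) i * hv v i = (pr v r : ℝ) from this]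
  rw [Finset.sum_congr rfl e1]
  have e2 : ∀ u : S7, eval (su m u) (lin (zz r) ^ 8) = Real.sqrt (2 * (m : ℝ)) ^ 8 * ⟪(u : E), zz r⟫ ^ 8 := by
    intro u
    rw [map_pow, eval_lin, ← mul_pow]
    congr 1
    rw [PiLp.inner_apply, Finset.mul_sum]
    refine Finset.sum_congr rfl fun i _ => ?_
    simp [su]
    ring
  simp only [e2]
  rw [integral_const_mul]
  have e3 : ∫ u : S7, ⟪(u : E), zz r⟫ ^ 8 ∂sg = F 8 (zz r) := rfl
  rw [e3, (moments (zz r)).2.2.2]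
  have h2 : ‖zz r‖ ^ 2 = 2 := by
    rw [norm_zz hr]
    norm_num
  have h8 : ‖zz r‖ ^ 8 = 16 := by
    rw [show ∀ x : ℝ, x ^ 8 = (x ^ 2) ^ 4 from fun x => by ring, h2]
    norm_num
  have hsq : Real.sqrt (2 * (m : ℝ)) ^ 8 = 16 * (m : ℝ) ^ 4 := by
    rw [show ∀ x : ℝ, x ^ 8 = (x ^ 2) ^ 4 from fun x => by ring, Real.sq_sqrt (by positivity)]
    ring
  rw [h8, hsq]
  ring

lemma sum_TT (m : ℕ) (w : (Fin 8 → ℤ) → ℝ) : ∑ r ∈ shell 1, TT m w r =
    (∑ v ∈ shell m, w v * ((rootSum v : ℝ) - 480 * (m : ℝ) ^ 4)) * sg.real Set.univ := by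
  rw [Finset.sum_congr rfl fun r hr => TT_root m w ((mem_shell 1 r).1 hr)]
  rw [Finset.sum_sub_distrib, ← Finset.sum_mul, Finset.sum_const, card_roots, Finset.sum_comm]
  have h1 : ∀ v ∈ shell m, ∑ r ∈ shell 1, w v * (pr v r : ℝ) ^ 8 = w v * (rootSum v : ℝ) := by
    intro v _
    unfold rootSum
    rw [← Finset.mul_sum, Int.cast_sum]
    simp only [Int.cast_pow]
  rw [Finset.sum_congr rfl h1]
  simp only [mul_sub, Finset.sum_sub_distrib]
  rw [← Finset.sum_mul]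
  generalize (∑ v ∈ shell m, w v * (rootSum v : ℝ)) = A
  generalize (∑ v ∈ shell m, w v) = B
  rw [nsmul_eq_mul]
  push_cast
  ring

lemma TT_base (m : ℕ) (w : (Fin 8 → ℤ) → ℝ) :
    TT m w ![2, 2, 0, 0, 0, 0, 0, 0] = Lw m w ((X 0 + X 1) ^ 8) := by
  have hp : lin (zz ![2, 2, 0, 0, 0, 0, 0, 0]) = X 0 + X 1 := by
    apply MvPolynomial.funext
    intro x
    rw [eval_lin]
    simp [Fin.sum_univ_eight, zz_apply]
  unfold TT
  rw [hp]

/-- an invariant weight gives a cubature formula of degree `11` if one sum vanishes -/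
lemma cub_of_sum (hA : S_AUT) (hT : S_TRANS) {m : ℕ} {w : (Fin 8 → ℤ) → ℝ} (hw : Inv m w)
    (hs : ∑ v ∈ shell m, w v * ((rootSum v : ℝ) - 480 * (m : ℝ) ^ 4) = 0) :
    Cubature 11 m (shell m) w := by
  apply cub11 hA hw
  rw [← TT_base]
  have h1 := hT (TT m w) (TT_perm hA hw) (TT_flip hA hw) (TT_gq hA hw)
  have h2 := sum_TT m w
  rw [hs, zero_mul, Finset.sum_congr rfl h1, Finset.sum_const, card_roots, nsmul_eq_mul] at h2
  rcases mul_eq_zero.1 h2 with h3 | h3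
  · norm_num at h3
  · exact h3

lemma cub_mono {t t' m : ℕ} {Y : Finset (Fin 8 → ℤ)} {w : (Fin 8 → ℤ) → ℝ} (h : t ≤ t')
    (hc : Cubature t' m Y w) : Cubature t m Y w := fun p hp => hc p (hp.trans h)

theorem main1 (hA : S_AUT) (hT : S_TRANS) (m : ℕ) (w : (Fin 8 → ℤ) → ℝ)
    (hw : ∀ g, IsAut g → ∀ v ∈ shell m, w (g v) = w v) :
    (Cubature 11 m (shell m) w ↔ ∑ v ∈ shell m, w v * ((rootSum v : ℝ) - 480 * (m : ℝ) ^ 4) = 0) ∧
    (Cubature 8 m (shell m) w ↔ ∑ v ∈ shell m, w v * ((rootSum v : ℝ) - 480 * (m : ℝ) ^ 4) = 0) := by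
  refine ⟨⟨fun h => ?_, fun h => cub_of_sum hA hT hw h⟩, ⟨fun h => ?_, fun h => ?_⟩⟩
  · exact cub_sum (fun v hv => (mem_shell m v).1 hv) (cub_mono (by norm_num) h)
  · exact cub_sum (fun v hv => (mem_shell m v).1 hv) h
  · exact cub_mono (by norm_num) (cub_of_sum hA hT hw h)

/-- the two-valued weights -/
theorem main2 (hA : S_AUT) (hT : S_TRANS) (hS : S_SIGNS) (m : ℕ) (hm : m = 4 ∨ 7 ≤ m) :
    ∃ a b : ℕ, 0 < a ∧ 0 < b ∧
      Cubature 11 m (shell m) (fun v => if rootSum v < 480 * (m : ℤ) ^ 4 then (a : ℝ) else (b : ℝ)) := by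
  obtain ⟨⟨v1, hv1, h1⟩, ⟨v2, hv2, h2⟩⟩ := hS m hm
  -- the two sums
  obtain ⟨A, hAdef⟩ : ∃ A : ℤ, A = ∑ v ∈ (shell m).filter (fun v => rootSum v < 480 * (m : ℤ) ^ 4),
    (480 * (m : ℤ) ^ 4 - rootSum v) := ⟨_, rfl⟩
  obtain ⟨B, hBdef⟩ : ∃ B : ℤ, B = ∑ v ∈ (shell m).filter (fun v => ¬ rootSum v < 480 * (m : ℤ) ^ 4),
    (rootSum v - 480 * (m : ℤ) ^ 4) := ⟨_, rfl⟩
  have hA0 : 0 < A := by
    rw [hAdef]
    refine Finset.sum_pos (fun v hv => ?_) ⟨v1, ?_⟩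
    · rw [Finset.mem_filter] at hv
      linarith [hv.2]
    · rw [Finset.mem_filter, mem_shell]
      exact ⟨hv1, h1⟩
  have hB0 : 0 < B := by
    rw [hBdef]
    refine Finset.sum_pos' (fun v hv => ?_) ⟨v2, ?_, ?_⟩
    · rw [Finset.mem_filter] at hv
      have := hv.2
      linarith [not_lt.1 this]
    · rw [Finset.mem_filter, mem_shell]
      exact ⟨hv2, not_lt.2 h2.le⟩
    · linarith
  refine ⟨B.toNat, A.toNat, ?_, ?_, ?_⟩
  · omega
  · omega
  apply cub_of_sum hA hT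
  · intro g hg v hv
    rw [mem_shell] at hv
    simp only [rootSum_aut hg hv.1]
  · have hBr : ((B.toNat : ℕ) : ℝ) = (B : ℝ) := by
      have : ((B.toNat : ℕ) : ℤ) = B := Int.toNat_of_nonneg hB0.le
      exact_mod_cast congrArg (fun z : ℤ => (z : ℝ)) this
    have hAr : ((A.toNat : ℕ) : ℝ) = (A : ℝ) := by
      have : ((A.toNat : ℕ) : ℤ) = A := Int.toNat_of_nonneg hA0.le
      exact_mod_cast congrArg (fun z : ℤ => (z : ℝ)) this
    rw [hBr, hAr]
    rw [← Finset.sum_filter_add_sum_filter_not (shell m) (fun v => rootSum v < 480 * (m : ℤ) ^ 4)]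
    have hA1 : (A : ℝ) = ∑ v ∈ (shell m).filter (fun v => rootSum v < 480 * (m : ℤ) ^ 4),
        (480 * (m : ℝ) ^ 4 - (rootSum v : ℝ)) := by
      rw [hAdef, Int.cast_sum]
      refine Finset.sum_congr rfl fun v _ => ?_
      push_cast
      ring
    have hB1 : (B : ℝ) = ∑ v ∈ (shell m).filter (fun v => ¬ rootSum v < 480 * (m : ℤ) ^ 4),
        ((rootSum v : ℝ) - 480 * (m : ℝ) ^ 4) := by
      rw [hBdef, Int.cast_sum]
      refine Finset.sum_congr rfl fun v _ => ?_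
      push_cast
      ring
    have e1 : ∑ v ∈ (shell m).filter (fun v => rootSum v < 480 * (m : ℤ) ^ 4),
        (if rootSum v < 480 * (m : ℤ) ^ 4 then (B : ℝ) else (A : ℝ)) *
          ((rootSum v : ℝ) - 480 * (m : ℝ) ^ 4) = (-(B : ℝ)) * (A : ℝ) := by
      conv_rhs => rw [hA1, Finset.mul_sum]
      refine Finset.sum_congr rfl fun v hv => ?_
      rw [Finset.mem_filter] at hv
      rw [if_pos hv.2]
      ring
    have e2 : ∑ v ∈ (shell m).filter (fun v => ¬ rootSum v < 480 * (m : ℤ) ^ 4),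
        (if rootSum v < 480 * (m : ℤ) ^ 4 then (B : ℝ) else (A : ℝ)) *
          ((rootSum v : ℝ) - 480 * (m : ℝ) ^ 4) = (A : ℝ) * (B : ℝ) := by
      conv_rhs => rw [hB1, Finset.mul_sum]
      refine Finset.sum_congr rfl fun v hv => ?_
      rw [Finset.mem_filter] at hv
      rw [if_neg hv.2]
    rw [e1, e2]
    ring

/-- the classification -/
theorem main3 (hA : S_AUT) (hT : S_TRANS) (hS : S_SIGNS) (hC : S_CONST) (m : ℕ) (hm : 0 < m) :
    (∃ (Y : Finset (Fin 8 → ℤ)) (w : (Fin 8 → ℤ) → ℝ), Y.Nonempty ∧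
      (∀ v ∈ Y, InShell m v ∧ 0 < w v) ∧ Cubature 8 m Y w) ↔ m ∉ ({1, 2, 3, 5, 6} : Set ℕ) := by
  constructor
  · rintro ⟨Y, w, hY, hw, hc⟩ hmem
    have hsum := cub_sum (fun v hv => (hw v hv).1) hc
    have hcase : (m = 1 ∨ m = 3 ∨ m = 5) ∨ (m = 2 ∨ m = 6) := by
      simp only [Set.mem_insert_iff, Set.mem_singleton_iff] at hmem
      omega
    rcases hcase with h | h
    · have : 0 < ∑ v ∈ Y, w v * ((rootSum v : ℝ) - 480 * (m : ℝ) ^ 4) := by
        refine Finset.sum_pos (fun v hv => mul_pos (hw v hv).2 ?_) hY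
        have h1 := hC.1 m v h (hw v hv).1
        have h2 : (480 : ℝ) * (m : ℝ) ^ 4 < rootSum v := by exact_mod_cast h1
        linarith
      linarith
    · have : 0 < ∑ v ∈ Y, -(w v * ((rootSum v : ℝ) - 480 * (m : ℝ) ^ 4)) := by
        refine Finset.sum_pos (fun v hv => ?_) hY
        have h1 := hC.2 m v h (hw v hv).1
        have h2 : (rootSum v : ℝ) < 480 * (m : ℝ) ^ 4 := by exact_mod_cast h1
        have := mul_pos (hw v hv).2 (sub_pos.2 h2)
        linarith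
      rw [Finset.sum_neg_distrib] at this
      linarith
  · intro hmem
    have hm' : m = 4 ∨ 7 ≤ m := by
      simp only [Set.mem_insert_iff, Set.mem_singleton_iff, not_or] at hmem
      omega
    obtain ⟨a, b, ha, hb, hc⟩ := main2 hA hT hS m hm'
    obtain ⟨⟨v1, hv1, h1⟩, -⟩ := hS m hm'
    refine ⟨shell m, _, ⟨v1, (mem_shell m v1).2 hv1⟩, fun v hv => ⟨(mem_shell m v).1 hv, ?_⟩,
      cub_mono (by norm_num) hc⟩
    show (0 : ℝ) < if rootSum v < 480 * (m : ℤ) ^ 4 then (a : ℝ) else (b : ℝ)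
    split_ifs
    · exact_mod_cast ha
    · exact_mod_cast hb

end Pool.Agent.Helper2.E8C
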