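import Pool.Agent.Helper2.E8C.Stm

/-!
# The functional part: preparations
-/

set_option autoImplicit false

open MvPolynomial

namespace Pool.Agent.Helper2.E8C

abbrev P8 : Type := MvPolynomial (Fin 8) ℝ

/-- the hypotheses of `S_FUN` -/
structure Good (L : P8 →ₗ[ℝ] ℝ) (c : ℝ) : Prop where
  perm : ∀ (σ : Equiv.Perm (Fin 8)) p, L (rename σ p) = L p
  flp : ∀ i j : Fin 8, i ≠ j → ∀ p, L (aeval (fX i j) p) = L p
  g : ∀ p, L (aeval gX p) = L p
  nrm : ∀ p, L ((∑ i, X i ^ 2) * p) = c * L p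
  one : L 1 = 0

/-- the monomials -/
noncomputable def mon (s : Fin 8 → ℕ) : P8 := ∏ i, X i ^ s i

noncomputable def mu (L : P8 →ₗ[ℝ] ℝ) (s : Fin 8 → ℕ) : ℝ := L (mon s)

variable {L : P8 →ₗ[ℝ] ℝ} {c : ℝ}

lemma mon_rename (σ : Equiv.Perm (Fin 8)) (s : Fin 8 → ℕ) : rename σ (mon (s ∘ σ)) = mon s := by
  unfold mon
  rw [map_prod]
  simp only [map_pow, rename_X, Function.comp]
  exact Equiv.prod_comp σ (fun i => (X i : P8) ^ s i)

lemma mu_comp (h : Good L c) (σ : Equiv.Perm (Fin 8)) (s : Fin 8 → ℕ) : mu L (s ∘ σ) = mu L s := by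
  unfold mu
  rw [← h.perm σ (mon (s ∘ σ)), mon_rename]

lemma mu_eq (h : Good L c) {s t : Fin 8 → ℕ} (hst : List.Perm (List.ofFn s) (List.ofFn t)) :
    mu L s = mu L t := by
  have h1 : List.Perm (List.ofFn (s ∘ Tuple.sort s)) (List.ofFn (t ∘ Tuple.sort t)) :=
    (Equiv.Perm.ofFn_comp_perm (Tuple.sort s) s).trans (hst.trans (Equiv.Perm.ofFn_comp_perm (Tuple.sort t) t).symm)
  have h2 : (List.ofFn (s ∘ Tuple.sort s)).Pairwise (· ≤ ·) := by
    exact (Tuple.monotone_sort s).sortedLE_ofFn.pairwise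
  have h3 : (List.ofFn (t ∘ Tuple.sort t)).Pairwise (· ≤ ·) := by
    exact (Tuple.monotone_sort t).sortedLE_ofFn.pairwise
  have h4 := List.Perm.eq_of_pairwise' h2 h3 h1
  have h5 := List.ofFn_injective h4
  rw [← mu_comp h (Tuple.sort s) s, ← mu_comp h (Tuple.sort t) t, h5]

lemma odd_zero (h : Good L c) (i j : Fin 8) (hij : i ≠ j) (q : P8) (hq : aeval (fX i j) q = -q) :
    L q = 0 := by
  have := h.flp i j hij q
  rw [hq, map_neg] at this
  linarith

lemma mon_flip (i j : Fin 8) (hij : i ≠ j) (s : Fin 8 → ℕ) :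
    aeval (fX i j) (mon s) = (-1) ^ (s i + s j) * mon s := by
  unfold mon
  rw [map_prod]
  simp only [map_pow, aeval_X]
  have h1 : ∀ k, (fX i j k : P8) ^ s k = (if k = i then (-1) ^ s i else 1) * (if k = j then (-1) ^ s j else 1) *
      X k ^ s k := by
    intro k
    unfold fX
    by_cases h1 : k = i
    · subst h1
      simp only [true_or, if_true, hij, if_false, mul_one]
      rw [neg_pow]
    · by_cases h2 : k = j
      · subst h2
        simp only [or_true, if_true, h1, if_false, one_mul]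
        rw [neg_pow]
      · simp [h1, h2]
  simp_rw [h1]
  rw [Finset.prod_mul_distrib, Finset.prod_mul_distrib]
  simp [pow_add]

lemma mu_mixed (h : Good L c) (s : Fin 8 → ℕ) (i j : Fin 8) (hi : s i % 2 = 1) (hj : s j % 2 = 0) :
    mu L s = 0 := by
  have hij : i ≠ j := by
    rintro rfl
    omega
  apply odd_zero h i j hij
  rw [mon_flip i j hij]
  have : Odd (s i + s j) := Nat.odd_iff.2 (by omega)
  rw [this.neg_one_pow]
  ring

/-- increase of one exponent by two -/
def inc (s : Fin 8 → ℕ) (i : Fin 8) : Fin 8 → ℕ := fun k => if k = i then s k + 2 else s k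

lemma mon_inc (s : Fin 8 → ℕ) (i : Fin 8) : mon (inc s i) = X i ^ 2 * mon s := by
  unfold mon inc
  have h1 : ∀ k, (X k : P8) ^ (if k = i then s k + 2 else s k) = (if k = i then X i ^ 2 else 1) * X k ^ s k := by
    intro k
    by_cases h : k = i
    · subst h
      simp only [if_true]
      ring
    · simp [h]
  simp_rw [h1]
  rw [Finset.prod_mul_distrib]
  simp

lemma mu_nrm (h : Good L c) (s : Fin 8 → ℕ) : ∑ i, mu L (inc s i) = c * mu L s := by
  have h1 := h.nrm (mon s)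
  rw [Finset.sum_mul, map_sum] at h1
  unfold mu
  rw [← h1]
  refine Finset.sum_congr rfl fun i _ => ?_
  rw [mon_inc]

/-- monomials in six variables -/
noncomputable def M6 (a b c d e f : ℕ) : P8 := X 0 ^ a * X 1 ^ b * X 2 ^ c * X 3 ^ d * X 4 ^ e * X 5 ^ f

lemma M6_mon (a b c d e f : ℕ) : M6 a b c d e f = mon ![a, b, c, d, e, f, 0, 0] := by
  unfold M6 mon
  simp [Fin.prod_univ_eight]

lemma L_M6 (a b c d e f : ℕ) : L (M6 a b c d e f) = mu L ![a, b, c, d, e, f, 0, 0] := by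
  rw [M6_mon]; rfl

lemma L_C (r : ℝ) (p : P8) : L (C r * p) = r * L p := by
  rw [← smul_eq_C_mul, map_smul, smul_eq_mul]

end Pool.Agent.Helper2.E8C
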