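import Pool.Agent.Helper2.E8C.Fun1

/-!
# The functional part: expansions (generated)
-/

set_option autoImplicit false

open MvPolynomial

namespace Pool.Agent.Helper2.E8C

variable {L : P8 →ₗ[ℝ] ℝ} {c : ℝ}

lemma exp_2_2_U : ((X 0 + X 1) ^ 2 * (X 0 - X 1) ^ 2 : P8) =
    M6 4 0 0 0 0 0 - C 2 * M6 2 2 0 0 0 0 + M6 0 4 0 0 0 0 := by
  unfold M6
  simp only [map_ofNat]
  ring

lemma ev_2_2_U (h : Good L c) : L ((X 0 + X 1) ^ 2 * (X 0 - X 1) ^ 2) =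
    2 * mu L ![4, 0, 0, 0, 0, 0, 0, 0] - 2 * mu L ![2, 2, 0, 0, 0, 0, 0, 0] := by
  rw [exp_2_2_U]
  simp only [map_add, map_sub, L_C, L_M6]
  have e2 : mu L ![0, 4, 0, 0, 0, 0, 0, 0] = mu L ![4, 0, 0, 0, 0, 0, 0, 0] := mu_eq h (by decide)
  simp only [e2]
  ring

lemma exp_2_2_S : ((X 2 + X 3) ^ 2 * (X 0 - X 1) ^ 2 : P8) =
    M6 2 0 2 0 0 0 + C 2 * M6 2 0 1 1 0 0 + M6 2 0 0 2 0 0 - C 2 * M6 1 1 2 0 0 0 - C 4 * M6 1 1 1 1 0 0 - C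
    2 * M6 1 1 0 2 0 0 + M6 0 2 2 0 0 0 + C 2 * M6 0 2 1 1 0 0 + M6 0 2 0 2 0 0 := by
  unfold M6
  simp only [map_ofNat]
  ring

lemma ev_2_2_S (h : Good L c) : L ((X 2 + X 3) ^ 2 * (X 0 - X 1) ^ 2) =
    4 * mu L ![2, 2, 0, 0, 0, 0, 0, 0] := by
  rw [exp_2_2_S]
  simp only [map_add, map_sub, L_C, L_M6]
  have e0 : mu L ![2, 0, 2, 0, 0, 0, 0, 0] = mu L ![2, 2, 0, 0, 0, 0, 0, 0] := mu_eq h (by decide)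
  have e1 : mu L ![2, 0, 1, 1, 0, 0, 0, 0] = 0 := mu_mixed h _ 2 7 (by decide) (by decide)
  have e2 : mu L ![2, 0, 0, 2, 0, 0, 0, 0] = mu L ![2, 2, 0, 0, 0, 0, 0, 0] := mu_eq h (by decide)
  have e3 : mu L ![1, 1, 2, 0, 0, 0, 0, 0] = 0 := mu_mixed h _ 0 7 (by decide) (by decide)
  have e4 : mu L ![1, 1, 1, 1, 0, 0, 0, 0] = 0 := mu_mixed h _ 0 7 (by decide) (by decide)
  have e5 : mu L ![1, 1, 0, 2, 0, 0, 0, 0] = 0 := mu_mixed h _ 0 7 (by decide) (by decide)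
  have e6 : mu L ![0, 2, 2, 0, 0, 0, 0, 0] = mu L ![2, 2, 0, 0, 0, 0, 0, 0] := mu_eq h (by decide)
  have e7 : mu L ![0, 2, 1, 1, 0, 0, 0, 0] = 0 := mu_mixed h _ 2 7 (by decide) (by decide)
  have e8 : mu L ![0, 2, 0, 2, 0, 0, 0, 0] = mu L ![2, 2, 0, 0, 0, 0, 0, 0] := mu_eq h (by decide)
  simp only [e0, e1, e2, e3, e4, e5, e6, e7, e8]
  ring

lemma exp_2_4_U : ((X 0 + X 1) ^ 2 * (X 0 - X 1) ^ 4 : P8) =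
    M6 6 0 0 0 0 0 - C 2 * M6 5 1 0 0 0 0 - M6 4 2 0 0 0 0 + C 4 * M6 3 3 0 0 0 0 - M6 2 4 0 0 0 0 - C 2 *
    M6 1 5 0 0 0 0 + M6 0 6 0 0 0 0 := by
  unfold M6
  simp only [map_ofNat]
  ring

lemma ev_2_4_U (h : Good L c) : L ((X 0 + X 1) ^ 2 * (X 0 - X 1) ^ 4) =
    2 * mu L ![6, 0, 0, 0, 0, 0, 0, 0] - 2 * mu L ![4, 2, 0, 0, 0, 0, 0, 0] := by
  rw [exp_2_4_U]
  simp only [map_add, map_sub, L_C, L_M6]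
  have e1 : mu L ![5, 1, 0, 0, 0, 0, 0, 0] = 0 := mu_mixed h _ 0 7 (by decide) (by decide)
  have e3 : mu L ![3, 3, 0, 0, 0, 0, 0, 0] = 0 := mu_mixed h _ 0 7 (by decide) (by decide)
  have e4 : mu L ![2, 4, 0, 0, 0, 0, 0, 0] = mu L ![4, 2, 0, 0, 0, 0, 0, 0] := mu_eq h (by decide)
  have e5 : mu L ![1, 5, 0, 0, 0, 0, 0, 0] = 0 := mu_mixed h _ 0 7 (by decide) (by decide)
  have e6 : mu L ![0, 6, 0, 0, 0, 0, 0, 0] = mu L ![6, 0, 0, 0, 0, 0, 0, 0] := mu_eq h (by decide)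
  simp only [e1, e3, e4, e5, e6]
  ring

lemma exp_2_4_S : ((X 2 + X 3) ^ 2 * (X 0 - X 1) ^ 4 : P8) =
    M6 4 0 2 0 0 0 + C 2 * M6 4 0 1 1 0 0 + M6 4 0 0 2 0 0 - C 4 * M6 3 1 2 0 0 0 - C 8 * M6 3 1 1 1 0 0 - C
    4 * M6 3 1 0 2 0 0 + C 6 * M6 2 2 2 0 0 0 + C 12 * M6 2 2 1 1 0 0 + C 6 * M6 2 2 0 2 0 0 - C 4 * M6 1 3
    2 0 0 0 - C 8 * M6 1 3 1 1 0 0 - C 4 * M6 1 3 0 2 0 0 + M6 0 4 2 0 0 0 + C 2 * M6 0 4 1 1 0 0 + M6 0 4 0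
    2 0 0 := by
  unfold M6
  simp only [map_ofNat]
  ring

lemma ev_2_4_S (h : Good L c) : L ((X 2 + X 3) ^ 2 * (X 0 - X 1) ^ 4) =
    4 * mu L ![4, 2, 0, 0, 0, 0, 0, 0] + 12 * mu L ![2, 2, 2, 0, 0, 0, 0, 0] := by
  rw [exp_2_4_S]
  simp only [map_add, map_sub, L_C, L_M6]
  have e0 : mu L ![4, 0, 2, 0, 0, 0, 0, 0] = mu L ![4, 2, 0, 0, 0, 0, 0, 0] := mu_eq h (by decide)
  have e1 : mu L ![4, 0, 1, 1, 0, 0, 0, 0] = 0 := mu_mixed h _ 2 7 (by decide) (by decide)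
  have e2 : mu L ![4, 0, 0, 2, 0, 0, 0, 0] = mu L ![4, 2, 0, 0, 0, 0, 0, 0] := mu_eq h (by decide)
  have e3 : mu L ![3, 1, 2, 0, 0, 0, 0, 0] = 0 := mu_mixed h _ 0 7 (by decide) (by decide)
  have e4 : mu L ![3, 1, 1, 1, 0, 0, 0, 0] = 0 := mu_mixed h _ 0 7 (by decide) (by decide)
  have e5 : mu L ![3, 1, 0, 2, 0, 0, 0, 0] = 0 := mu_mixed h _ 0 7 (by decide) (by decide)
  have e7 : mu L ![2, 2, 1, 1, 0, 0, 0, 0] = 0 := mu_mixed h _ 2 7 (by decide) (by decide)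
  have e8 : mu L ![2, 2, 0, 2, 0, 0, 0, 0] = mu L ![2, 2, 2, 0, 0, 0, 0, 0] := mu_eq h (by decide)
  have e9 : mu L ![1, 3, 2, 0, 0, 0, 0, 0] = 0 := mu_mixed h _ 0 7 (by decide) (by decide)
  have e10 : mu L ![1, 3, 1, 1, 0, 0, 0, 0] = 0 := mu_mixed h _ 0 7 (by decide) (by decide)
  have e11 : mu L ![1, 3, 0, 2, 0, 0, 0, 0] = 0 := mu_mixed h _ 0 7 (by decide) (by decide)
  have e12 : mu L ![0, 4, 2, 0, 0, 0, 0, 0] = mu L ![4, 2, 0, 0, 0, 0, 0, 0] := mu_eq h (by decide)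
  have e13 : mu L ![0, 4, 1, 1, 0, 0, 0, 0] = 0 := mu_mixed h _ 2 7 (by decide) (by decide)
  have e14 : mu L ![0, 4, 0, 2, 0, 0, 0, 0] = mu L ![4, 2, 0, 0, 0, 0, 0, 0] := mu_eq h (by decide)
  simp only [e0, e1, e2, e3, e4, e5, e7, e8, e9, e10, e11, e12, e13, e14]
  ring

lemma exp_4_4_U : ((X 0 + X 1) ^ 4 * (X 0 - X 1) ^ 4 : P8) =
    M6 8 0 0 0 0 0 - C 4 * M6 6 2 0 0 0 0 + C 6 * M6 4 4 0 0 0 0 - C 4 * M6 2 6 0 0 0 0 + M6 0 8 0 0 0 0 := by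
  unfold M6
  simp only [map_ofNat]
  ring

lemma ev_4_4_U (h : Good L c) : L ((X 0 + X 1) ^ 4 * (X 0 - X 1) ^ 4) =
    2 * mu L ![8, 0, 0, 0, 0, 0, 0, 0] - 8 * mu L ![6, 2, 0, 0, 0, 0, 0, 0] + 6 * mu L ![4, 4, 0, 0, 0, 0,
    0, 0] := by
  rw [exp_4_4_U]
  simp only [map_add, map_sub, L_C, L_M6]
  have e3 : mu L ![2, 6, 0, 0, 0, 0, 0, 0] = mu L ![6, 2, 0, 0, 0, 0, 0, 0] := mu_eq h (by decide)
  have e4 : mu L ![0, 8, 0, 0, 0, 0, 0, 0] = mu L ![8, 0, 0, 0, 0, 0, 0, 0] := mu_eq h (by decide)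
  simp only [e3, e4]
  ring

lemma exp_4_4_S : ((X 2 + X 3) ^ 4 * (X 0 - X 1) ^ 4 : P8) =
    M6 4 0 4 0 0 0 + C 4 * M6 4 0 3 1 0 0 + C 6 * M6 4 0 2 2 0 0 + C 4 * M6 4 0 1 3 0 0 + M6 4 0 0 4 0 0 - C
    4 * M6 3 1 4 0 0 0 - C 16 * M6 3 1 3 1 0 0 - C 24 * M6 3 1 2 2 0 0 - C 16 * M6 3 1 1 3 0 0 - C 4 * M6 3
    1 0 4 0 0 + C 6 * M6 2 2 4 0 0 0 + C 24 * M6 2 2 3 1 0 0 + C 36 * M6 2 2 2 2 0 0 + C 24 * M6 2 2 1 3 0 0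
    + C 6 * M6 2 2 0 4 0 0 - C 4 * M6 1 3 4 0 0 0 - C 16 * M6 1 3 3 1 0 0 - C 24 * M6 1 3 2 2 0 0 - C 16 *
    M6 1 3 1 3 0 0 - C 4 * M6 1 3 0 4 0 0 + M6 0 4 4 0 0 0 + C 4 * M6 0 4 3 1 0 0 + C 6 * M6 0 4 2 2 0 0 + C
    4 * M6 0 4 1 3 0 0 + M6 0 4 0 4 0 0 := by
  unfold M6
  simp only [map_ofNat]
  ring

lemma ev_4_4_S (h : Good L c) : L ((X 2 + X 3) ^ 4 * (X 0 - X 1) ^ 4) =
    4 * mu L ![4, 4, 0, 0, 0, 0, 0, 0] + 24 * mu L ![4, 2, 2, 0, 0, 0, 0, 0] + 36 * mu L ![2, 2, 2, 2, 0, 0,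
    0, 0] := by
  rw [exp_4_4_S]
  simp only [map_add, map_sub, L_C, L_M6]
  have e0 : mu L ![4, 0, 4, 0, 0, 0, 0, 0] = mu L ![4, 4, 0, 0, 0, 0, 0, 0] := mu_eq h (by decide)
  have e1 : mu L ![4, 0, 3, 1, 0, 0, 0, 0] = 0 := mu_mixed h _ 2 7 (by decide) (by decide)
  have e2 : mu L ![4, 0, 2, 2, 0, 0, 0, 0] = mu L ![4, 2, 2, 0, 0, 0, 0, 0] := mu_eq h (by decide)
  have e3 : mu L ![4, 0, 1, 3, 0, 0, 0, 0] = 0 := mu_mixed h _ 2 7 (by decide) (by decide)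
  have e4 : mu L ![4, 0, 0, 4, 0, 0, 0, 0] = mu L ![4, 4, 0, 0, 0, 0, 0, 0] := mu_eq h (by decide)
  have e5 : mu L ![3, 1, 4, 0, 0, 0, 0, 0] = 0 := mu_mixed h _ 0 7 (by decide) (by decide)
  have e6 : mu L ![3, 1, 3, 1, 0, 0, 0, 0] = 0 := mu_mixed h _ 0 7 (by decide) (by decide)
  have e7 : mu L ![3, 1, 2, 2, 0, 0, 0, 0] = 0 := mu_mixed h _ 0 7 (by decide) (by decide)
  have e8 : mu L ![3, 1, 1, 3, 0, 0, 0, 0] = 0 := mu_mixed h _ 0 7 (by decide) (by decide)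
  have e9 : mu L ![3, 1, 0, 4, 0, 0, 0, 0] = 0 := mu_mixed h _ 0 7 (by decide) (by decide)
  have e10 : mu L ![2, 2, 4, 0, 0, 0, 0, 0] = mu L ![4, 2, 2, 0, 0, 0, 0, 0] := mu_eq h (by decide)
  have e11 : mu L ![2, 2, 3, 1, 0, 0, 0, 0] = 0 := mu_mixed h _ 2 7 (by decide) (by decide)
  have e13 : mu L ![2, 2, 1, 3, 0, 0, 0, 0] = 0 := mu_mixed h _ 2 7 (by decide) (by decide)
  have e14 : mu L ![2, 2, 0, 4, 0, 0, 0, 0] = mu L ![4, 2, 2, 0, 0, 0, 0, 0] := mu_eq h (by decide)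
  have e15 : mu L ![1, 3, 4, 0, 0, 0, 0, 0] = 0 := mu_mixed h _ 0 7 (by decide) (by decide)
  have e16 : mu L ![1, 3, 3, 1, 0, 0, 0, 0] = 0 := mu_mixed h _ 0 7 (by decide) (by decide)
  have e17 : mu L ![1, 3, 2, 2, 0, 0, 0, 0] = 0 := mu_mixed h _ 0 7 (by decide) (by decide)
  have e18 : mu L ![1, 3, 1, 3, 0, 0, 0, 0] = 0 := mu_mixed h _ 0 7 (by decide) (by decide)
  have e19 : mu L ![1, 3, 0, 4, 0, 0, 0, 0] = 0 := mu_mixed h _ 0 7 (by decide) (by decide)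
  have e20 : mu L ![0, 4, 4, 0, 0, 0, 0, 0] = mu L ![4, 4, 0, 0, 0, 0, 0, 0] := mu_eq h (by decide)
  have e21 : mu L ![0, 4, 3, 1, 0, 0, 0, 0] = 0 := mu_mixed h _ 2 7 (by decide) (by decide)
  have e22 : mu L ![0, 4, 2, 2, 0, 0, 0, 0] = mu L ![4, 2, 2, 0, 0, 0, 0, 0] := mu_eq h (by decide)
  have e23 : mu L ![0, 4, 1, 3, 0, 0, 0, 0] = 0 := mu_mixed h _ 2 7 (by decide) (by decide)
  have e24 : mu L ![0, 4, 0, 4, 0, 0, 0, 0] = mu L ![4, 4, 0, 0, 0, 0, 0, 0] := mu_eq h (by decide)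
  simp only [e0, e1, e2, e3, e4, e5, e6, e7, e8, e9, e10, e11, e13, e14, e15, e16, e17, e18, e19, e20, e21, e22, e23,
    e24]
  ring

lemma exp_4_6_U : ((X 0 + X 1) ^ 4 * (X 0 - X 1) ^ 6 : P8) =
    M6 10 0 0 0 0 0 - C 2 * M6 9 1 0 0 0 0 - C 3 * M6 8 2 0 0 0 0 + C 8 * M6 7 3 0 0 0 0 + C 2 * M6 6 4 0 0
    0 0 - C 12 * M6 5 5 0 0 0 0 + C 2 * M6 4 6 0 0 0 0 + C 8 * M6 3 7 0 0 0 0 - C 3 * M6 2 8 0 0 0 0 - C 2 *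
    M6 1 9 0 0 0 0 + M6 0 10 0 0 0 0 := by
  unfold M6
  simp only [map_ofNat]
  ring

lemma ev_4_6_U (h : Good L c) : L ((X 0 + X 1) ^ 4 * (X 0 - X 1) ^ 6) =
    2 * mu L ![10, 0, 0, 0, 0, 0, 0, 0] - 6 * mu L ![8, 2, 0, 0, 0, 0, 0, 0] + 4 * mu L ![6, 4, 0, 0, 0, 0,
    0, 0] := by
  rw [exp_4_6_U]
  simp only [map_add, map_sub, L_C, L_M6]
  have e1 : mu L ![9, 1, 0, 0, 0, 0, 0, 0] = 0 := mu_mixed h _ 0 7 (by decide) (by decide)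
  have e3 : mu L ![7, 3, 0, 0, 0, 0, 0, 0] = 0 := mu_mixed h _ 0 7 (by decide) (by decide)
  have e5 : mu L ![5, 5, 0, 0, 0, 0, 0, 0] = 0 := mu_mixed h _ 0 7 (by decide) (by decide)
  have e6 : mu L ![4, 6, 0, 0, 0, 0, 0, 0] = mu L ![6, 4, 0, 0, 0, 0, 0, 0] := mu_eq h (by decide)
  have e7 : mu L ![3, 7, 0, 0, 0, 0, 0, 0] = 0 := mu_mixed h _ 0 7 (by decide) (by decide)
  have e8 : mu L ![2, 8, 0, 0, 0, 0, 0, 0] = mu L ![8, 2, 0, 0, 0, 0, 0, 0] := mu_eq h (by decide)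
  have e9 : mu L ![1, 9, 0, 0, 0, 0, 0, 0] = 0 := mu_mixed h _ 0 7 (by decide) (by decide)
  have e10 : mu L ![0, 10, 0, 0, 0, 0, 0, 0] = mu L ![10, 0, 0, 0, 0, 0, 0, 0] := mu_eq h (by decide)
  simp only [e1, e3, e5, e6, e7, e8, e9, e10]
  ring

lemma exp_4_6_S : ((X 2 + X 3) ^ 4 * (X 0 - X 1) ^ 6 : P8) =
    M6 6 0 4 0 0 0 + C 4 * M6 6 0 3 1 0 0 + C 6 * M6 6 0 2 2 0 0 + C 4 * M6 6 0 1 3 0 0 + M6 6 0 0 4 0 0 - C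
    6 * M6 5 1 4 0 0 0 - C 24 * M6 5 1 3 1 0 0 - C 36 * M6 5 1 2 2 0 0 - C 24 * M6 5 1 1 3 0 0 - C 6 * M6 5
    1 0 4 0 0 + C 15 * M6 4 2 4 0 0 0 + C 60 * M6 4 2 3 1 0 0 + C 90 * M6 4 2 2 2 0 0 + C 60 * M6 4 2 1 3 0
    0 + C 15 * M6 4 2 0 4 0 0 - C 20 * M6 3 3 4 0 0 0 - C 80 * M6 3 3 3 1 0 0 - C 120 * M6 3 3 2 2 0 0 - C
    80 * M6 3 3 1 3 0 0 - C 20 * M6 3 3 0 4 0 0 + C 15 * M6 2 4 4 0 0 0 + C 60 * M6 2 4 3 1 0 0 + C 90 * M6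
    2 4 2 2 0 0 + C 60 * M6 2 4 1 3 0 0 + C 15 * M6 2 4 0 4 0 0 - C 6 * M6 1 5 4 0 0 0 - C 24 * M6 1 5 3 1 0
    0 - C 36 * M6 1 5 2 2 0 0 - C 24 * M6 1 5 1 3 0 0 - C 6 * M6 1 5 0 4 0 0 + M6 0 6 4 0 0 0 + C 4 * M6 0 6
    3 1 0 0 + C 6 * M6 0 6 2 2 0 0 + C 4 * M6 0 6 1 3 0 0 + M6 0 6 0 4 0 0 := by
  unfold M6
  simp only [map_ofNat]
  ring

lemma ev_4_6_S (h : Good L c) : L ((X 2 + X 3) ^ 4 * (X 0 - X 1) ^ 6) =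
    4 * mu L ![6, 4, 0, 0, 0, 0, 0, 0] + 12 * mu L ![6, 2, 2, 0, 0, 0, 0, 0] + 60 * mu L ![4, 4, 2, 0, 0, 0,
    0, 0] + 180 * mu L ![4, 2, 2, 2, 0, 0, 0, 0] := by
  rw [exp_4_6_S]
  simp only [map_add, map_sub, L_C, L_M6]
  have e0 : mu L ![6, 0, 4, 0, 0, 0, 0, 0] = mu L ![6, 4, 0, 0, 0, 0, 0, 0] := mu_eq h (by decide)
  have e1 : mu L ![6, 0, 3, 1, 0, 0, 0, 0] = 0 := mu_mixed h _ 2 7 (by decide) (by decide)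
  have e2 : mu L ![6, 0, 2, 2, 0, 0, 0, 0] = mu L ![6, 2, 2, 0, 0, 0, 0, 0] := mu_eq h (by decide)
  have e3 : mu L ![6, 0, 1, 3, 0, 0, 0, 0] = 0 := mu_mixed h _ 2 7 (by decide) (by decide)
  have e4 : mu L ![6, 0, 0, 4, 0, 0, 0, 0] = mu L ![6, 4, 0, 0, 0, 0, 0, 0] := mu_eq h (by decide)
  have e5 : mu L ![5, 1, 4, 0, 0, 0, 0, 0] = 0 := mu_mixed h _ 0 7 (by decide) (by decide)
  have e6 : mu L ![5, 1, 3, 1, 0, 0, 0, 0] = 0 := mu_mixed h _ 0 7 (by decide) (by decide)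
  have e7 : mu L ![5, 1, 2, 2, 0, 0, 0, 0] = 0 := mu_mixed h _ 0 7 (by decide) (by decide)
  have e8 : mu L ![5, 1, 1, 3, 0, 0, 0, 0] = 0 := mu_mixed h _ 0 7 (by decide) (by decide)
  have e9 : mu L ![5, 1, 0, 4, 0, 0, 0, 0] = 0 := mu_mixed h _ 0 7 (by decide) (by decide)
  have e10 : mu L ![4, 2, 4, 0, 0, 0, 0, 0] = mu L ![4, 4, 2, 0, 0, 0, 0, 0] := mu_eq h (by decide)
  have e11 : mu L ![4, 2, 3, 1, 0, 0, 0, 0] = 0 := mu_mixed h _ 2 7 (by decide) (by decide)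
  have e13 : mu L ![4, 2, 1, 3, 0, 0, 0, 0] = 0 := mu_mixed h _ 2 7 (by decide) (by decide)
  have e14 : mu L ![4, 2, 0, 4, 0, 0, 0, 0] = mu L ![4, 4, 2, 0, 0, 0, 0, 0] := mu_eq h (by decide)
  have e15 : mu L ![3, 3, 4, 0, 0, 0, 0, 0] = 0 := mu_mixed h _ 0 7 (by decide) (by decide)
  have e16 : mu L ![3, 3, 3, 1, 0, 0, 0, 0] = 0 := mu_mixed h _ 0 7 (by decide) (by decide)
  have e17 : mu L ![3, 3, 2, 2, 0, 0, 0, 0] = 0 := mu_mixed h _ 0 7 (by decide) (by decide)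
  have e18 : mu L ![3, 3, 1, 3, 0, 0, 0, 0] = 0 := mu_mixed h _ 0 7 (by decide) (by decide)
  have e19 : mu L ![3, 3, 0, 4, 0, 0, 0, 0] = 0 := mu_mixed h _ 0 7 (by decide) (by decide)
  have e20 : mu L ![2, 4, 4, 0, 0, 0, 0, 0] = mu L ![4, 4, 2, 0, 0, 0, 0, 0] := mu_eq h (by decide)
  have e21 : mu L ![2, 4, 3, 1, 0, 0, 0, 0] = 0 := mu_mixed h _ 2 7 (by decide) (by decide)
  have e22 : mu L ![2, 4, 2, 2, 0, 0, 0, 0] = mu L ![4, 2, 2, 2, 0, 0, 0, 0] := mu_eq h (by decide)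
  have e23 : mu L ![2, 4, 1, 3, 0, 0, 0, 0] = 0 := mu_mixed h _ 2 7 (by decide) (by decide)
  have e24 : mu L ![2, 4, 0, 4, 0, 0, 0, 0] = mu L ![4, 4, 2, 0, 0, 0, 0, 0] := mu_eq h (by decide)
  have e25 : mu L ![1, 5, 4, 0, 0, 0, 0, 0] = 0 := mu_mixed h _ 0 7 (by decide) (by decide)
  have e26 : mu L ![1, 5, 3, 1, 0, 0, 0, 0] = 0 := mu_mixed h _ 0 7 (by decide) (by decide)
  have e27 : mu L ![1, 5, 2, 2, 0, 0, 0, 0] = 0 := mu_mixed h _ 0 7 (by decide) (by decide)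
  have e28 : mu L ![1, 5, 1, 3, 0, 0, 0, 0] = 0 := mu_mixed h _ 0 7 (by decide) (by decide)
  have e29 : mu L ![1, 5, 0, 4, 0, 0, 0, 0] = 0 := mu_mixed h _ 0 7 (by decide) (by decide)
  have e30 : mu L ![0, 6, 4, 0, 0, 0, 0, 0] = mu L ![6, 4, 0, 0, 0, 0, 0, 0] := mu_eq h (by decide)
  have e31 : mu L ![0, 6, 3, 1, 0, 0, 0, 0] = 0 := mu_mixed h _ 2 7 (by decide) (by decide)
  have e32 : mu L ![0, 6, 2, 2, 0, 0, 0, 0] = mu L ![6, 2, 2, 0, 0, 0, 0, 0] := mu_eq h (by decide)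
  have e33 : mu L ![0, 6, 1, 3, 0, 0, 0, 0] = 0 := mu_mixed h _ 2 7 (by decide) (by decide)
  have e34 : mu L ![0, 6, 0, 4, 0, 0, 0, 0] = mu L ![6, 4, 0, 0, 0, 0, 0, 0] := mu_eq h (by decide)
  simp only [e0, e1, e2, e3, e4, e5, e6, e7, e8, e9, e10, e11, e13, e14, e15, e16, e17, e18, e19, e20, e21, e22, e23,
    e24, e25, e26, e27, e28, e29, e30, e31, e32, e33, e34]
  ring

lemma exp_2_8_U : ((X 0 + X 1) ^ 2 * (X 0 - X 1) ^ 8 : P8) =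
    M6 10 0 0 0 0 0 - C 6 * M6 9 1 0 0 0 0 + C 13 * M6 8 2 0 0 0 0 - C 8 * M6 7 3 0 0 0 0 - C 14 * M6 6 4 0
    0 0 0 + C 28 * M6 5 5 0 0 0 0 - C 14 * M6 4 6 0 0 0 0 - C 8 * M6 3 7 0 0 0 0 + C 13 * M6 2 8 0 0 0 0 - C
    6 * M6 1 9 0 0 0 0 + M6 0 10 0 0 0 0 := by
  unfold M6
  simp only [map_ofNat]
  ring

lemma ev_2_8_U (h : Good L c) : L ((X 0 + X 1) ^ 2 * (X 0 - X 1) ^ 8) =
    2 * mu L ![10, 0, 0, 0, 0, 0, 0, 0] + 26 * mu L ![8, 2, 0, 0, 0, 0, 0, 0] - 28 * mu L ![6, 4, 0, 0, 0,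
    0, 0, 0] := by
  rw [exp_2_8_U]
  simp only [map_add, map_sub, L_C, L_M6]
  have e1 : mu L ![9, 1, 0, 0, 0, 0, 0, 0] = 0 := mu_mixed h _ 0 7 (by decide) (by decide)
  have e3 : mu L ![7, 3, 0, 0, 0, 0, 0, 0] = 0 := mu_mixed h _ 0 7 (by decide) (by decide)
  have e5 : mu L ![5, 5, 0, 0, 0, 0, 0, 0] = 0 := mu_mixed h _ 0 7 (by decide) (by decide)
  have e6 : mu L ![4, 6, 0, 0, 0, 0, 0, 0] = mu L ![6, 4, 0, 0, 0, 0, 0, 0] := mu_eq h (by decide)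
  have e7 : mu L ![3, 7, 0, 0, 0, 0, 0, 0] = 0 := mu_mixed h _ 0 7 (by decide) (by decide)
  have e8 : mu L ![2, 8, 0, 0, 0, 0, 0, 0] = mu L ![8, 2, 0, 0, 0, 0, 0, 0] := mu_eq h (by decide)
  have e9 : mu L ![1, 9, 0, 0, 0, 0, 0, 0] = 0 := mu_mixed h _ 0 7 (by decide) (by decide)
  have e10 : mu L ![0, 10, 0, 0, 0, 0, 0, 0] = mu L ![10, 0, 0, 0, 0, 0, 0, 0] := mu_eq h (by decide)
  simp only [e1, e3, e5, e6, e7, e8, e9, e10]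
  ring

lemma exp_2_8_S : ((X 2 + X 3) ^ 2 * (X 0 - X 1) ^ 8 : P8) =
    M6 8 0 2 0 0 0 + C 2 * M6 8 0 1 1 0 0 + M6 8 0 0 2 0 0 - C 8 * M6 7 1 2 0 0 0 - C 16 * M6 7 1 1 1 0 0 -
    C 8 * M6 7 1 0 2 0 0 + C 28 * M6 6 2 2 0 0 0 + C 56 * M6 6 2 1 1 0 0 + C 28 * M6 6 2 0 2 0 0 - C 56 * M6
    5 3 2 0 0 0 - C 112 * M6 5 3 1 1 0 0 - C 56 * M6 5 3 0 2 0 0 + C 70 * M6 4 4 2 0 0 0 + C 140 * M6 4 4 1
    1 0 0 + C 70 * M6 4 4 0 2 0 0 - C 56 * M6 3 5 2 0 0 0 - C 112 * M6 3 5 1 1 0 0 - C 56 * M6 3 5 0 2 0 0 +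
    C 28 * M6 2 6 2 0 0 0 + C 56 * M6 2 6 1 1 0 0 + C 28 * M6 2 6 0 2 0 0 - C 8 * M6 1 7 2 0 0 0 - C 16 * M6
    1 7 1 1 0 0 - C 8 * M6 1 7 0 2 0 0 + M6 0 8 2 0 0 0 + C 2 * M6 0 8 1 1 0 0 + M6 0 8 0 2 0 0 := by
  unfold M6
  simp only [map_ofNat]
  ring

lemma ev_2_8_S (h : Good L c) : L ((X 2 + X 3) ^ 2 * (X 0 - X 1) ^ 8) =
    4 * mu L ![8, 2, 0, 0, 0, 0, 0, 0] + 112 * mu L ![6, 2, 2, 0, 0, 0, 0, 0] + 140 * mu L ![4, 4, 2, 0, 0,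
    0, 0, 0] := by
  rw [exp_2_8_S]
  simp only [map_add, map_sub, L_C, L_M6]
  have e0 : mu L ![8, 0, 2, 0, 0, 0, 0, 0] = mu L ![8, 2, 0, 0, 0, 0, 0, 0] := mu_eq h (by decide)
  have e1 : mu L ![8, 0, 1, 1, 0, 0, 0, 0] = 0 := mu_mixed h _ 2 7 (by decide) (by decide)
  have e2 : mu L ![8, 0, 0, 2, 0, 0, 0, 0] = mu L ![8, 2, 0, 0, 0, 0, 0, 0] := mu_eq h (by decide)
  have e3 : mu L ![7, 1, 2, 0, 0, 0, 0, 0] = 0 := mu_mixed h _ 0 7 (by decide) (by decide)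
  have e4 : mu L ![7, 1, 1, 1, 0, 0, 0, 0] = 0 := mu_mixed h _ 0 7 (by decide) (by decide)
  have e5 : mu L ![7, 1, 0, 2, 0, 0, 0, 0] = 0 := mu_mixed h _ 0 7 (by decide) (by decide)
  have e7 : mu L ![6, 2, 1, 1, 0, 0, 0, 0] = 0 := mu_mixed h _ 2 7 (by decide) (by decide)
  have e8 : mu L ![6, 2, 0, 2, 0, 0, 0, 0] = mu L ![6, 2, 2, 0, 0, 0, 0, 0] := mu_eq h (by decide)
  have e9 : mu L ![5, 3, 2, 0, 0, 0, 0, 0] = 0 := mu_mixed h _ 0 7 (by decide) (by decide)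
  have e10 : mu L ![5, 3, 1, 1, 0, 0, 0, 0] = 0 := mu_mixed h _ 0 7 (by decide) (by decide)
  have e11 : mu L ![5, 3, 0, 2, 0, 0, 0, 0] = 0 := mu_mixed h _ 0 7 (by decide) (by decide)
  have e13 : mu L ![4, 4, 1, 1, 0, 0, 0, 0] = 0 := mu_mixed h _ 2 7 (by decide) (by decide)
  have e14 : mu L ![4, 4, 0, 2, 0, 0, 0, 0] = mu L ![4, 4, 2, 0, 0, 0, 0, 0] := mu_eq h (by decide)
  have e15 : mu L ![3, 5, 2, 0, 0, 0, 0, 0] = 0 := mu_mixed h _ 0 7 (by decide) (by decide)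
  have e16 : mu L ![3, 5, 1, 1, 0, 0, 0, 0] = 0 := mu_mixed h _ 0 7 (by decide) (by decide)
  have e17 : mu L ![3, 5, 0, 2, 0, 0, 0, 0] = 0 := mu_mixed h _ 0 7 (by decide) (by decide)
  have e18 : mu L ![2, 6, 2, 0, 0, 0, 0, 0] = mu L ![6, 2, 2, 0, 0, 0, 0, 0] := mu_eq h (by decide)
  have e19 : mu L ![2, 6, 1, 1, 0, 0, 0, 0] = 0 := mu_mixed h _ 2 7 (by decide) (by decide)
  have e20 : mu L ![2, 6, 0, 2, 0, 0, 0, 0] = mu L ![6, 2, 2, 0, 0, 0, 0, 0] := mu_eq h (by decide)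
  have e21 : mu L ![1, 7, 2, 0, 0, 0, 0, 0] = 0 := mu_mixed h _ 0 7 (by decide) (by decide)
  have e22 : mu L ![1, 7, 1, 1, 0, 0, 0, 0] = 0 := mu_mixed h _ 0 7 (by decide) (by decide)
  have e23 : mu L ![1, 7, 0, 2, 0, 0, 0, 0] = 0 := mu_mixed h _ 0 7 (by decide) (by decide)
  have e24 : mu L ![0, 8, 2, 0, 0, 0, 0, 0] = mu L ![8, 2, 0, 0, 0, 0, 0, 0] := mu_eq h (by decide)
  have e25 : mu L ![0, 8, 1, 1, 0, 0, 0, 0] = 0 := mu_mixed h _ 2 7 (by decide) (by decide)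
  have e26 : mu L ![0, 8, 0, 2, 0, 0, 0, 0] = mu L ![8, 2, 0, 0, 0, 0, 0, 0] := mu_eq h (by decide)
  simp only [e0, e1, e2, e3, e4, e5, e7, e8, e9, e10, e11, e13, e14, e15, e16, e17, e18, e19, e20, e21, e22, e23,
    e24, e25, e26]
  ring

end Pool.Agent.Helper2.E8C
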