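import Pool.Agent.Helper2.E8C.Fun2

/-!
# The functional part: norm relations and the product relation (generated)
-/

set_option autoImplicit false

open MvPolynomial

namespace Pool.Agent.Helper2.E8C

variable {L : P8 →ₗ[ℝ] ℝ} {c : ℝ}

lemma nr_0 (h : Good L c) :
    8 * mu L ![2, 0, 0, 0, 0, 0, 0, 0] = c * mu L ![0, 0, 0, 0, 0, 0, 0, 0] := by
  have h0 := mu_nrm h ![0, 0, 0, 0, 0, 0, 0, 0]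
  rw [Fin.sum_univ_eight] at h0
  have e0 : mu L (inc ![0, 0, 0, 0, 0, 0, 0, 0] 0) = mu L ![2, 0, 0, 0, 0, 0, 0, 0] := mu_eq h (by decide)
  have e1 : mu L (inc ![0, 0, 0, 0, 0, 0, 0, 0] 1) = mu L ![2, 0, 0, 0, 0, 0, 0, 0] := mu_eq h (by decide)
  have e2 : mu L (inc ![0, 0, 0, 0, 0, 0, 0, 0] 2) = mu L ![2, 0, 0, 0, 0, 0, 0, 0] := mu_eq h (by decide)
  have e3 : mu L (inc ![0, 0, 0, 0, 0, 0, 0, 0] 3) = mu L ![2, 0, 0, 0, 0, 0, 0, 0] := mu_eq h (by decide)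
  have e4 : mu L (inc ![0, 0, 0, 0, 0, 0, 0, 0] 4) = mu L ![2, 0, 0, 0, 0, 0, 0, 0] := mu_eq h (by decide)
  have e5 : mu L (inc ![0, 0, 0, 0, 0, 0, 0, 0] 5) = mu L ![2, 0, 0, 0, 0, 0, 0, 0] := mu_eq h (by decide)
  have e6 : mu L (inc ![0, 0, 0, 0, 0, 0, 0, 0] 6) = mu L ![2, 0, 0, 0, 0, 0, 0, 0] := mu_eq h (by decide)
  have e7 : mu L (inc ![0, 0, 0, 0, 0, 0, 0, 0] 7) = mu L ![2, 0, 0, 0, 0, 0, 0, 0] := mu_eq h (by decide)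
  rw [e0, e1, e2, e3, e4, e5, e6, e7] at h0
  linarith

lemma nr_2 (h : Good L c) :
    1 * mu L ![4, 0, 0, 0, 0, 0, 0, 0] + 7 * mu L ![2, 2, 0, 0, 0, 0, 0, 0] = c * mu L ![2, 0, 0, 0, 0, 0,
    0, 0] := by
  have h0 := mu_nrm h ![2, 0, 0, 0, 0, 0, 0, 0]
  rw [Fin.sum_univ_eight] at h0
  have e0 : mu L (inc ![2, 0, 0, 0, 0, 0, 0, 0] 0) = mu L ![4, 0, 0, 0, 0, 0, 0, 0] := mu_eq h (by decide)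
  have e1 : mu L (inc ![2, 0, 0, 0, 0, 0, 0, 0] 1) = mu L ![2, 2, 0, 0, 0, 0, 0, 0] := mu_eq h (by decide)
  have e2 : mu L (inc ![2, 0, 0, 0, 0, 0, 0, 0] 2) = mu L ![2, 2, 0, 0, 0, 0, 0, 0] := mu_eq h (by decide)
  have e3 : mu L (inc ![2, 0, 0, 0, 0, 0, 0, 0] 3) = mu L ![2, 2, 0, 0, 0, 0, 0, 0] := mu_eq h (by decide)
  have e4 : mu L (inc ![2, 0, 0, 0, 0, 0, 0, 0] 4) = mu L ![2, 2, 0, 0, 0, 0, 0, 0] := mu_eq h (by decide)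
  have e5 : mu L (inc ![2, 0, 0, 0, 0, 0, 0, 0] 5) = mu L ![2, 2, 0, 0, 0, 0, 0, 0] := mu_eq h (by decide)
  have e6 : mu L (inc ![2, 0, 0, 0, 0, 0, 0, 0] 6) = mu L ![2, 2, 0, 0, 0, 0, 0, 0] := mu_eq h (by decide)
  have e7 : mu L (inc ![2, 0, 0, 0, 0, 0, 0, 0] 7) = mu L ![2, 2, 0, 0, 0, 0, 0, 0] := mu_eq h (by decide)
  rw [e0, e1, e2, e3, e4, e5, e6, e7] at h0
  linarith

lemma nr_4 (h : Good L c) :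
    1 * mu L ![6, 0, 0, 0, 0, 0, 0, 0] + 7 * mu L ![4, 2, 0, 0, 0, 0, 0, 0] = c * mu L ![4, 0, 0, 0, 0, 0,
    0, 0] := by
  have h0 := mu_nrm h ![4, 0, 0, 0, 0, 0, 0, 0]
  rw [Fin.sum_univ_eight] at h0
  have e0 : mu L (inc ![4, 0, 0, 0, 0, 0, 0, 0] 0) = mu L ![6, 0, 0, 0, 0, 0, 0, 0] := mu_eq h (by decide)
  have e1 : mu L (inc ![4, 0, 0, 0, 0, 0, 0, 0] 1) = mu L ![4, 2, 0, 0, 0, 0, 0, 0] := mu_eq h (by decide)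
  have e2 : mu L (inc ![4, 0, 0, 0, 0, 0, 0, 0] 2) = mu L ![4, 2, 0, 0, 0, 0, 0, 0] := mu_eq h (by decide)
  have e3 : mu L (inc ![4, 0, 0, 0, 0, 0, 0, 0] 3) = mu L ![4, 2, 0, 0, 0, 0, 0, 0] := mu_eq h (by decide)
  have e4 : mu L (inc ![4, 0, 0, 0, 0, 0, 0, 0] 4) = mu L ![4, 2, 0, 0, 0, 0, 0, 0] := mu_eq h (by decide)
  have e5 : mu L (inc ![4, 0, 0, 0, 0, 0, 0, 0] 5) = mu L ![4, 2, 0, 0, 0, 0, 0, 0] := mu_eq h (by decide)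
  have e6 : mu L (inc ![4, 0, 0, 0, 0, 0, 0, 0] 6) = mu L ![4, 2, 0, 0, 0, 0, 0, 0] := mu_eq h (by decide)
  have e7 : mu L (inc ![4, 0, 0, 0, 0, 0, 0, 0] 7) = mu L ![4, 2, 0, 0, 0, 0, 0, 0] := mu_eq h (by decide)
  rw [e0, e1, e2, e3, e4, e5, e6, e7] at h0
  linarith

lemma nr_2_2 (h : Good L c) :
    2 * mu L ![4, 2, 0, 0, 0, 0, 0, 0] + 6 * mu L ![2, 2, 2, 0, 0, 0, 0, 0] = c * mu L ![2, 2, 0, 0, 0, 0,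
    0, 0] := by
  have h0 := mu_nrm h ![2, 2, 0, 0, 0, 0, 0, 0]
  rw [Fin.sum_univ_eight] at h0
  have e0 : mu L (inc ![2, 2, 0, 0, 0, 0, 0, 0] 0) = mu L ![4, 2, 0, 0, 0, 0, 0, 0] := mu_eq h (by decide)
  have e1 : mu L (inc ![2, 2, 0, 0, 0, 0, 0, 0] 1) = mu L ![4, 2, 0, 0, 0, 0, 0, 0] := mu_eq h (by decide)
  have e2 : mu L (inc ![2, 2, 0, 0, 0, 0, 0, 0] 2) = mu L ![2, 2, 2, 0, 0, 0, 0, 0] := mu_eq h (by decide)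
  have e3 : mu L (inc ![2, 2, 0, 0, 0, 0, 0, 0] 3) = mu L ![2, 2, 2, 0, 0, 0, 0, 0] := mu_eq h (by decide)
  have e4 : mu L (inc ![2, 2, 0, 0, 0, 0, 0, 0] 4) = mu L ![2, 2, 2, 0, 0, 0, 0, 0] := mu_eq h (by decide)
  have e5 : mu L (inc ![2, 2, 0, 0, 0, 0, 0, 0] 5) = mu L ![2, 2, 2, 0, 0, 0, 0, 0] := mu_eq h (by decide)
  have e6 : mu L (inc ![2, 2, 0, 0, 0, 0, 0, 0] 6) = mu L ![2, 2, 2, 0, 0, 0, 0, 0] := mu_eq h (by decide)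
  have e7 : mu L (inc ![2, 2, 0, 0, 0, 0, 0, 0] 7) = mu L ![2, 2, 2, 0, 0, 0, 0, 0] := mu_eq h (by decide)
  rw [e0, e1, e2, e3, e4, e5, e6, e7] at h0
  linarith

lemma nr_6 (h : Good L c) :
    1 * mu L ![8, 0, 0, 0, 0, 0, 0, 0] + 7 * mu L ![6, 2, 0, 0, 0, 0, 0, 0] = c * mu L ![6, 0, 0, 0, 0, 0,
    0, 0] := by
  have h0 := mu_nrm h ![6, 0, 0, 0, 0, 0, 0, 0]
  rw [Fin.sum_univ_eight] at h0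
  have e0 : mu L (inc ![6, 0, 0, 0, 0, 0, 0, 0] 0) = mu L ![8, 0, 0, 0, 0, 0, 0, 0] := mu_eq h (by decide)
  have e1 : mu L (inc ![6, 0, 0, 0, 0, 0, 0, 0] 1) = mu L ![6, 2, 0, 0, 0, 0, 0, 0] := mu_eq h (by decide)
  have e2 : mu L (inc ![6, 0, 0, 0, 0, 0, 0, 0] 2) = mu L ![6, 2, 0, 0, 0, 0, 0, 0] := mu_eq h (by decide)
  have e3 : mu L (inc ![6, 0, 0, 0, 0, 0, 0, 0] 3) = mu L ![6, 2, 0, 0, 0, 0, 0, 0] := mu_eq h (by decide)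
  have e4 : mu L (inc ![6, 0, 0, 0, 0, 0, 0, 0] 4) = mu L ![6, 2, 0, 0, 0, 0, 0, 0] := mu_eq h (by decide)
  have e5 : mu L (inc ![6, 0, 0, 0, 0, 0, 0, 0] 5) = mu L ![6, 2, 0, 0, 0, 0, 0, 0] := mu_eq h (by decide)
  have e6 : mu L (inc ![6, 0, 0, 0, 0, 0, 0, 0] 6) = mu L ![6, 2, 0, 0, 0, 0, 0, 0] := mu_eq h (by decide)
  have e7 : mu L (inc ![6, 0, 0, 0, 0, 0, 0, 0] 7) = mu L ![6, 2, 0, 0, 0, 0, 0, 0] := mu_eq h (by decide)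
  rw [e0, e1, e2, e3, e4, e5, e6, e7] at h0
  linarith

lemma nr_4_2 (h : Good L c) :
    1 * mu L ![6, 2, 0, 0, 0, 0, 0, 0] + 1 * mu L ![4, 4, 0, 0, 0, 0, 0, 0] + 6 * mu L ![4, 2, 2, 0, 0, 0,
    0, 0] = c * mu L ![4, 2, 0, 0, 0, 0, 0, 0] := by
  have h0 := mu_nrm h ![4, 2, 0, 0, 0, 0, 0, 0]
  rw [Fin.sum_univ_eight] at h0
  have e0 : mu L (inc ![4, 2, 0, 0, 0, 0, 0, 0] 0) = mu L ![6, 2, 0, 0, 0, 0, 0, 0] := mu_eq h (by decide)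
  have e1 : mu L (inc ![4, 2, 0, 0, 0, 0, 0, 0] 1) = mu L ![4, 4, 0, 0, 0, 0, 0, 0] := mu_eq h (by decide)
  have e2 : mu L (inc ![4, 2, 0, 0, 0, 0, 0, 0] 2) = mu L ![4, 2, 2, 0, 0, 0, 0, 0] := mu_eq h (by decide)
  have e3 : mu L (inc ![4, 2, 0, 0, 0, 0, 0, 0] 3) = mu L ![4, 2, 2, 0, 0, 0, 0, 0] := mu_eq h (by decide)
  have e4 : mu L (inc ![4, 2, 0, 0, 0, 0, 0, 0] 4) = mu L ![4, 2, 2, 0, 0, 0, 0, 0] := mu_eq h (by decide)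
  have e5 : mu L (inc ![4, 2, 0, 0, 0, 0, 0, 0] 5) = mu L ![4, 2, 2, 0, 0, 0, 0, 0] := mu_eq h (by decide)
  have e6 : mu L (inc ![4, 2, 0, 0, 0, 0, 0, 0] 6) = mu L ![4, 2, 2, 0, 0, 0, 0, 0] := mu_eq h (by decide)
  have e7 : mu L (inc ![4, 2, 0, 0, 0, 0, 0, 0] 7) = mu L ![4, 2, 2, 0, 0, 0, 0, 0] := mu_eq h (by decide)
  rw [e0, e1, e2, e3, e4, e5, e6, e7] at h0
  linarith

lemma nr_2_2_2 (h : Good L c) :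
    3 * mu L ![4, 2, 2, 0, 0, 0, 0, 0] + 5 * mu L ![2, 2, 2, 2, 0, 0, 0, 0] = c * mu L ![2, 2, 2, 0, 0, 0,
    0, 0] := by
  have h0 := mu_nrm h ![2, 2, 2, 0, 0, 0, 0, 0]
  rw [Fin.sum_univ_eight] at h0
  have e0 : mu L (inc ![2, 2, 2, 0, 0, 0, 0, 0] 0) = mu L ![4, 2, 2, 0, 0, 0, 0, 0] := mu_eq h (by decide)
  have e1 : mu L (inc ![2, 2, 2, 0, 0, 0, 0, 0] 1) = mu L ![4, 2, 2, 0, 0, 0, 0, 0] := mu_eq h (by decide)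
  have e2 : mu L (inc ![2, 2, 2, 0, 0, 0, 0, 0] 2) = mu L ![4, 2, 2, 0, 0, 0, 0, 0] := mu_eq h (by decide)
  have e3 : mu L (inc ![2, 2, 2, 0, 0, 0, 0, 0] 3) = mu L ![2, 2, 2, 2, 0, 0, 0, 0] := mu_eq h (by decide)
  have e4 : mu L (inc ![2, 2, 2, 0, 0, 0, 0, 0] 4) = mu L ![2, 2, 2, 2, 0, 0, 0, 0] := mu_eq h (by decide)
  have e5 : mu L (inc ![2, 2, 2, 0, 0, 0, 0, 0] 5) = mu L ![2, 2, 2, 2, 0, 0, 0, 0] := mu_eq h (by decide)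
  have e6 : mu L (inc ![2, 2, 2, 0, 0, 0, 0, 0] 6) = mu L ![2, 2, 2, 2, 0, 0, 0, 0] := mu_eq h (by decide)
  have e7 : mu L (inc ![2, 2, 2, 0, 0, 0, 0, 0] 7) = mu L ![2, 2, 2, 2, 0, 0, 0, 0] := mu_eq h (by decide)
  rw [e0, e1, e2, e3, e4, e5, e6, e7] at h0
  linarith

lemma nr_8 (h : Good L c) :
    1 * mu L ![10, 0, 0, 0, 0, 0, 0, 0] + 7 * mu L ![8, 2, 0, 0, 0, 0, 0, 0] = c * mu L ![8, 0, 0, 0, 0, 0,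
    0, 0] := by
  have h0 := mu_nrm h ![8, 0, 0, 0, 0, 0, 0, 0]
  rw [Fin.sum_univ_eight] at h0
  have e0 : mu L (inc ![8, 0, 0, 0, 0, 0, 0, 0] 0) = mu L ![10, 0, 0, 0, 0, 0, 0, 0] := mu_eq h (by decide)
  have e1 : mu L (inc ![8, 0, 0, 0, 0, 0, 0, 0] 1) = mu L ![8, 2, 0, 0, 0, 0, 0, 0] := mu_eq h (by decide)
  have e2 : mu L (inc ![8, 0, 0, 0, 0, 0, 0, 0] 2) = mu L ![8, 2, 0, 0, 0, 0, 0, 0] := mu_eq h (by decide)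
  have e3 : mu L (inc ![8, 0, 0, 0, 0, 0, 0, 0] 3) = mu L ![8, 2, 0, 0, 0, 0, 0, 0] := mu_eq h (by decide)
  have e4 : mu L (inc ![8, 0, 0, 0, 0, 0, 0, 0] 4) = mu L ![8, 2, 0, 0, 0, 0, 0, 0] := mu_eq h (by decide)
  have e5 : mu L (inc ![8, 0, 0, 0, 0, 0, 0, 0] 5) = mu L ![8, 2, 0, 0, 0, 0, 0, 0] := mu_eq h (by decide)
  have e6 : mu L (inc ![8, 0, 0, 0, 0, 0, 0, 0] 6) = mu L ![8, 2, 0, 0, 0, 0, 0, 0] := mu_eq h (by decide)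
  have e7 : mu L (inc ![8, 0, 0, 0, 0, 0, 0, 0] 7) = mu L ![8, 2, 0, 0, 0, 0, 0, 0] := mu_eq h (by decide)
  rw [e0, e1, e2, e3, e4, e5, e6, e7] at h0
  linarith

lemma nr_6_2 (h : Good L c) :
    1 * mu L ![8, 2, 0, 0, 0, 0, 0, 0] + 1 * mu L ![6, 4, 0, 0, 0, 0, 0, 0] + 6 * mu L ![6, 2, 2, 0, 0, 0,
    0, 0] = c * mu L ![6, 2, 0, 0, 0, 0, 0, 0] := by
  have h0 := mu_nrm h ![6, 2, 0, 0, 0, 0, 0, 0]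
  rw [Fin.sum_univ_eight] at h0
  have e0 : mu L (inc ![6, 2, 0, 0, 0, 0, 0, 0] 0) = mu L ![8, 2, 0, 0, 0, 0, 0, 0] := mu_eq h (by decide)
  have e1 : mu L (inc ![6, 2, 0, 0, 0, 0, 0, 0] 1) = mu L ![6, 4, 0, 0, 0, 0, 0, 0] := mu_eq h (by decide)
  have e2 : mu L (inc ![6, 2, 0, 0, 0, 0, 0, 0] 2) = mu L ![6, 2, 2, 0, 0, 0, 0, 0] := mu_eq h (by decide)
  have e3 : mu L (inc ![6, 2, 0, 0, 0, 0, 0, 0] 3) = mu L ![6, 2, 2, 0, 0, 0, 0, 0] := mu_eq h (by decide)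
  have e4 : mu L (inc ![6, 2, 0, 0, 0, 0, 0, 0] 4) = mu L ![6, 2, 2, 0, 0, 0, 0, 0] := mu_eq h (by decide)
  have e5 : mu L (inc ![6, 2, 0, 0, 0, 0, 0, 0] 5) = mu L ![6, 2, 2, 0, 0, 0, 0, 0] := mu_eq h (by decide)
  have e6 : mu L (inc ![6, 2, 0, 0, 0, 0, 0, 0] 6) = mu L ![6, 2, 2, 0, 0, 0, 0, 0] := mu_eq h (by decide)
  have e7 : mu L (inc ![6, 2, 0, 0, 0, 0, 0, 0] 7) = mu L ![6, 2, 2, 0, 0, 0, 0, 0] := mu_eq h (by decide)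
  rw [e0, e1, e2, e3, e4, e5, e6, e7] at h0
  linarith

lemma nr_4_4 (h : Good L c) :
    2 * mu L ![6, 4, 0, 0, 0, 0, 0, 0] + 6 * mu L ![4, 4, 2, 0, 0, 0, 0, 0] = c * mu L ![4, 4, 0, 0, 0, 0,
    0, 0] := by
  have h0 := mu_nrm h ![4, 4, 0, 0, 0, 0, 0, 0]
  rw [Fin.sum_univ_eight] at h0
  have e0 : mu L (inc ![4, 4, 0, 0, 0, 0, 0, 0] 0) = mu L ![6, 4, 0, 0, 0, 0, 0, 0] := mu_eq h (by decide)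
  have e1 : mu L (inc ![4, 4, 0, 0, 0, 0, 0, 0] 1) = mu L ![6, 4, 0, 0, 0, 0, 0, 0] := mu_eq h (by decide)
  have e2 : mu L (inc ![4, 4, 0, 0, 0, 0, 0, 0] 2) = mu L ![4, 4, 2, 0, 0, 0, 0, 0] := mu_eq h (by decide)
  have e3 : mu L (inc ![4, 4, 0, 0, 0, 0, 0, 0] 3) = mu L ![4, 4, 2, 0, 0, 0, 0, 0] := mu_eq h (by decide)
  have e4 : mu L (inc ![4, 4, 0, 0, 0, 0, 0, 0] 4) = mu L ![4, 4, 2, 0, 0, 0, 0, 0] := mu_eq h (by decide)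
  have e5 : mu L (inc ![4, 4, 0, 0, 0, 0, 0, 0] 5) = mu L ![4, 4, 2, 0, 0, 0, 0, 0] := mu_eq h (by decide)
  have e6 : mu L (inc ![4, 4, 0, 0, 0, 0, 0, 0] 6) = mu L ![4, 4, 2, 0, 0, 0, 0, 0] := mu_eq h (by decide)
  have e7 : mu L (inc ![4, 4, 0, 0, 0, 0, 0, 0] 7) = mu L ![4, 4, 2, 0, 0, 0, 0, 0] := mu_eq h (by decide)
  rw [e0, e1, e2, e3, e4, e5, e6, e7] at h0
  linarith

lemma nr_4_2_2 (h : Good L c) :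
    1 * mu L ![6, 2, 2, 0, 0, 0, 0, 0] + 2 * mu L ![4, 4, 2, 0, 0, 0, 0, 0] + 5 * mu L ![4, 2, 2, 2, 0, 0,
    0, 0] = c * mu L ![4, 2, 2, 0, 0, 0, 0, 0] := by
  have h0 := mu_nrm h ![4, 2, 2, 0, 0, 0, 0, 0]
  rw [Fin.sum_univ_eight] at h0
  have e0 : mu L (inc ![4, 2, 2, 0, 0, 0, 0, 0] 0) = mu L ![6, 2, 2, 0, 0, 0, 0, 0] := mu_eq h (by decide)
  have e1 : mu L (inc ![4, 2, 2, 0, 0, 0, 0, 0] 1) = mu L ![4, 4, 2, 0, 0, 0, 0, 0] := mu_eq h (by decide)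
  have e2 : mu L (inc ![4, 2, 2, 0, 0, 0, 0, 0] 2) = mu L ![4, 4, 2, 0, 0, 0, 0, 0] := mu_eq h (by decide)
  have e3 : mu L (inc ![4, 2, 2, 0, 0, 0, 0, 0] 3) = mu L ![4, 2, 2, 2, 0, 0, 0, 0] := mu_eq h (by decide)
  have e4 : mu L (inc ![4, 2, 2, 0, 0, 0, 0, 0] 4) = mu L ![4, 2, 2, 2, 0, 0, 0, 0] := mu_eq h (by decide)
  have e5 : mu L (inc ![4, 2, 2, 0, 0, 0, 0, 0] 5) = mu L ![4, 2, 2, 2, 0, 0, 0, 0] := mu_eq h (by decide)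
  have e6 : mu L (inc ![4, 2, 2, 0, 0, 0, 0, 0] 6) = mu L ![4, 2, 2, 2, 0, 0, 0, 0] := mu_eq h (by decide)
  have e7 : mu L (inc ![4, 2, 2, 0, 0, 0, 0, 0] 7) = mu L ![4, 2, 2, 2, 0, 0, 0, 0] := mu_eq h (by decide)
  rw [e0, e1, e2, e3, e4, e5, e6, e7] at h0
  linarith

lemma nr_2_2_2_2 (h : Good L c) :
    4 * mu L ![4, 2, 2, 2, 0, 0, 0, 0] + 4 * mu L ![2, 2, 2, 2, 2, 0, 0, 0] = c * mu L ![2, 2, 2, 2, 0, 0,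
    0, 0] := by
  have h0 := mu_nrm h ![2, 2, 2, 2, 0, 0, 0, 0]
  rw [Fin.sum_univ_eight] at h0
  have e0 : mu L (inc ![2, 2, 2, 2, 0, 0, 0, 0] 0) = mu L ![4, 2, 2, 2, 0, 0, 0, 0] := mu_eq h (by decide)
  have e1 : mu L (inc ![2, 2, 2, 2, 0, 0, 0, 0] 1) = mu L ![4, 2, 2, 2, 0, 0, 0, 0] := mu_eq h (by decide)
  have e2 : mu L (inc ![2, 2, 2, 2, 0, 0, 0, 0] 2) = mu L ![4, 2, 2, 2, 0, 0, 0, 0] := mu_eq h (by decide)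
  have e3 : mu L (inc ![2, 2, 2, 2, 0, 0, 0, 0] 3) = mu L ![4, 2, 2, 2, 0, 0, 0, 0] := mu_eq h (by decide)
  have e4 : mu L (inc ![2, 2, 2, 2, 0, 0, 0, 0] 4) = mu L ![2, 2, 2, 2, 2, 0, 0, 0] := mu_eq h (by decide)
  have e5 : mu L (inc ![2, 2, 2, 2, 0, 0, 0, 0] 5) = mu L ![2, 2, 2, 2, 2, 0, 0, 0] := mu_eq h (by decide)
  have e6 : mu L (inc ![2, 2, 2, 2, 0, 0, 0, 0] 6) = mu L ![2, 2, 2, 2, 2, 0, 0, 0] := mu_eq h (by decide)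
  have e7 : mu L (inc ![2, 2, 2, 2, 0, 0, 0, 0] 7) = mu L ![2, 2, 2, 2, 2, 0, 0, 0] := mu_eq h (by decide)
  rw [e0, e1, e2, e3, e4, e5, e6, e7] at h0
  linarith

lemma nr_1_1_1_1_1_1_1_1 (h : Good L c) :
    8 * mu L ![3, 1, 1, 1, 1, 1, 1, 1] = c * mu L ![1, 1, 1, 1, 1, 1, 1, 1] := by
  have h0 := mu_nrm h ![1, 1, 1, 1, 1, 1, 1, 1]
  rw [Fin.sum_univ_eight] at h0
  have e0 : mu L (inc ![1, 1, 1, 1, 1, 1, 1, 1] 0) = mu L ![3, 1, 1, 1, 1, 1, 1, 1] := mu_eq h (by decide)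
  have e1 : mu L (inc ![1, 1, 1, 1, 1, 1, 1, 1] 1) = mu L ![3, 1, 1, 1, 1, 1, 1, 1] := mu_eq h (by decide)
  have e2 : mu L (inc ![1, 1, 1, 1, 1, 1, 1, 1] 2) = mu L ![3, 1, 1, 1, 1, 1, 1, 1] := mu_eq h (by decide)
  have e3 : mu L (inc ![1, 1, 1, 1, 1, 1, 1, 1] 3) = mu L ![3, 1, 1, 1, 1, 1, 1, 1] := mu_eq h (by decide)
  have e4 : mu L (inc ![1, 1, 1, 1, 1, 1, 1, 1] 4) = mu L ![3, 1, 1, 1, 1, 1, 1, 1] := mu_eq h (by decide)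
  have e5 : mu L (inc ![1, 1, 1, 1, 1, 1, 1, 1] 5) = mu L ![3, 1, 1, 1, 1, 1, 1, 1] := mu_eq h (by decide)
  have e6 : mu L (inc ![1, 1, 1, 1, 1, 1, 1, 1] 6) = mu L ![3, 1, 1, 1, 1, 1, 1, 1] := mu_eq h (by decide)
  have e7 : mu L (inc ![1, 1, 1, 1, 1, 1, 1, 1] 7) = mu L ![3, 1, 1, 1, 1, 1, 1, 1] := mu_eq h (by decide)
  rw [e0, e1, e2, e3, e4, e5, e6, e7] at h0
  linarith

lemma hC : (2 : P8) * C (1 / 2) = 1 := by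
  rw [show (2 : P8) = C 2 from (map_ofNat C 2).symm, ← C_mul]
  norm_num

noncomputable def blockA : P8 :=
    -X 0 ^ 4 + 2 * (X 0 ^ 2 * X 1 ^ 2) + 2 * (X 0 ^ 2 * X 2 ^ 2) + 2 * (X 0 ^ 2 * X 3 ^ 2) + 8 * (X 0 * X 1
    * X 2 * X 3) - X 1 ^ 4 + 2 * (X 1 ^ 2 * X 2 ^ 2) + 2 * (X 1 ^ 2 * X 3 ^ 2) - X 2 ^ 4 + 2 * (X 2 ^ 2 * X
    3 ^ 2) - X 3 ^ 4

noncomputable def blockB : P8 :=
    -X 4 ^ 4 + 2 * (X 4 ^ 2 * X 5 ^ 2) + 2 * (X 4 ^ 2 * X 6 ^ 2) + 2 * (X 4 ^ 2 * X 7 ^ 2) + 8 * (X 4 * X 5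
    * X 6 * X 7) - X 5 ^ 4 + 2 * (X 5 ^ 2 * X 6 ^ 2) + 2 * (X 5 ^ 2 * X 7 ^ 2) - X 6 ^ 4 + 2 * (X 6 ^ 2 * X
    7 ^ 2) - X 7 ^ 4

lemma two_gX_lo (k : Fin 8) (hk : k.val < 4) : 2 * gX k = 2 * X k - (X 0 + X 1 + X 2 + X 3) := by
  unfold gX
  rw [if_pos hk]
  linear_combination (-(X 0 + X 1 + X 2 + X 3)) * hC

lemma two_gX_hi (k : Fin 8) (hk : ¬ k.val < 4) : 2 * gX k = 2 * X k - (X 4 + X 5 + X 6 + X 7) := by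
  unfold gX
  rw [if_neg hk]
  linear_combination (-(X 4 + X 5 + X 6 + X 7)) * hC

lemma prodA : (2 * gX 0) * (2 * gX 1) * (2 * gX 2) * (2 * gX 3) = blockA := by
  rw [two_gX_lo 0 (by decide), two_gX_lo 1 (by decide), two_gX_lo 2 (by decide), two_gX_lo 3 (by decide)]
  unfold blockA
  ring

lemma prodB : (2 * gX 4) * (2 * gX 5) * (2 * gX 6) * (2 * gX 7) = blockB := by
  rw [two_gX_hi 4 (by decide), two_gX_hi 5 (by decide), two_gX_hi 6 (by decide), two_gX_hi 7 (by decide)]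
  unfold blockB
  ring

/-- monomials in eight variables -/
noncomputable def M8 (a b c d e f g h : ℕ) : P8 :=
  X 0 ^ a * X 1 ^ b * X 2 ^ c * X 3 ^ d * X 4 ^ e * X 5 ^ f * X 6 ^ g * X 7 ^ h

lemma L_M8 (a b c d e f g h : ℕ) : L (M8 a b c d e f g h) = mu L ![a, b, c, d, e, f, g, h] := by
  unfold mu M8 mon
  simp [Fin.prod_univ_eight]

lemma exp_AB : blockA * blockB =
    M8 0 0 0 4 0 0 0 4 + M8 0 0 0 4 0 0 4 0 + M8 0 0 0 4 0 4 0 0 + M8 0 0 0 4 4 0 0 0 + C 4 * M8 0 0 2 2 0 0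
    2 2 + C 4 * M8 0 0 2 2 0 2 0 2 + C 4 * M8 0 0 2 2 0 2 2 0 + C 16 * M8 0 0 2 2 1 1 1 1 + C 4 * M8 0 0 2 2
    2 0 0 2 + C 4 * M8 0 0 2 2 2 0 2 0 + C 4 * M8 0 0 2 2 2 2 0 0 + M8 0 0 4 0 0 0 0 4 + M8 0 0 4 0 0 0 4 0
    + M8 0 0 4 0 0 4 0 0 + M8 0 0 4 0 4 0 0 0 + C 4 * M8 0 2 0 2 0 0 2 2 + C 4 * M8 0 2 0 2 0 2 0 2 + C 4 *
    M8 0 2 0 2 0 2 2 0 + C 16 * M8 0 2 0 2 1 1 1 1 + C 4 * M8 0 2 0 2 2 0 0 2 + C 4 * M8 0 2 0 2 2 0 2 0 + C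
    4 * M8 0 2 0 2 2 2 0 0 + C 4 * M8 0 2 2 0 0 0 2 2 + C 4 * M8 0 2 2 0 0 2 0 2 + C 4 * M8 0 2 2 0 0 2 2 0
    + C 16 * M8 0 2 2 0 1 1 1 1 + C 4 * M8 0 2 2 0 2 0 0 2 + C 4 * M8 0 2 2 0 2 0 2 0 + C 4 * M8 0 2 2 0 2 2
    0 0 + M8 0 4 0 0 0 0 0 4 + M8 0 4 0 0 0 0 4 0 + M8 0 4 0 0 0 4 0 0 + M8 0 4 0 0 4 0 0 0 + C 16 * M8 1 1
    1 1 0 0 2 2 + C 16 * M8 1 1 1 1 0 2 0 2 + C 16 * M8 1 1 1 1 0 2 2 0 + C 64 * M8 1 1 1 1 1 1 1 1 + C 16 *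
    M8 1 1 1 1 2 0 0 2 + C 16 * M8 1 1 1 1 2 0 2 0 + C 16 * M8 1 1 1 1 2 2 0 0 + C 4 * M8 2 0 0 2 0 0 2 2 +
    C 4 * M8 2 0 0 2 0 2 0 2 + C 4 * M8 2 0 0 2 0 2 2 0 + C 16 * M8 2 0 0 2 1 1 1 1 + C 4 * M8 2 0 0 2 2 0 0
    2 + C 4 * M8 2 0 0 2 2 0 2 0 + C 4 * M8 2 0 0 2 2 2 0 0 + C 4 * M8 2 0 2 0 0 0 2 2 + C 4 * M8 2 0 2 0 0
    2 0 2 + C 4 * M8 2 0 2 0 0 2 2 0 + C 16 * M8 2 0 2 0 1 1 1 1 + C 4 * M8 2 0 2 0 2 0 0 2 + C 4 * M8 2 0 2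
    0 2 0 2 0 + C 4 * M8 2 0 2 0 2 2 0 0 + C 4 * M8 2 2 0 0 0 0 2 2 + C 4 * M8 2 2 0 0 0 2 0 2 + C 4 * M8 2
    2 0 0 0 2 2 0 + C 16 * M8 2 2 0 0 1 1 1 1 + C 4 * M8 2 2 0 0 2 0 0 2 + C 4 * M8 2 2 0 0 2 0 2 0 + C 4 *
    M8 2 2 0 0 2 2 0 0 + M8 4 0 0 0 0 0 0 4 + M8 4 0 0 0 0 0 4 0 + M8 4 0 0 0 0 4 0 0 + M8 4 0 0 0 4 0 0 0 -
    C 2 * M8 0 0 0 4 0 0 2 2 - C 2 * M8 0 0 0 4 0 2 0 2 - C 2 * M8 0 0 0 4 0 2 2 0 - C 8 * M8 0 0 0 4 1 1 1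
    1 - C 2 * M8 0 0 0 4 2 0 0 2 - C 2 * M8 0 0 0 4 2 0 2 0 - C 2 * M8 0 0 0 4 2 2 0 0 - C 2 * M8 0 0 2 2 0
    0 0 4 - C 2 * M8 0 0 2 2 0 0 4 0 - C 2 * M8 0 0 2 2 0 4 0 0 - C 2 * M8 0 0 2 2 4 0 0 0 - C 2 * M8 0 0 4
    0 0 0 2 2 - C 2 * M8 0 0 4 0 0 2 0 2 - C 2 * M8 0 0 4 0 0 2 2 0 - C 8 * M8 0 0 4 0 1 1 1 1 - C 2 * M8 0
    0 4 0 2 0 0 2 - C 2 * M8 0 0 4 0 2 0 2 0 - C 2 * M8 0 0 4 0 2 2 0 0 - C 2 * M8 0 2 0 2 0 0 0 4 - C 2 *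
    M8 0 2 0 2 0 0 4 0 - C 2 * M8 0 2 0 2 0 4 0 0 - C 2 * M8 0 2 0 2 4 0 0 0 - C 2 * M8 0 2 2 0 0 0 0 4 - C
    2 * M8 0 2 2 0 0 0 4 0 - C 2 * M8 0 2 2 0 0 4 0 0 - C 2 * M8 0 2 2 0 4 0 0 0 - C 2 * M8 0 4 0 0 0 0 2 2
    - C 2 * M8 0 4 0 0 0 2 0 2 - C 2 * M8 0 4 0 0 0 2 2 0 - C 8 * M8 0 4 0 0 1 1 1 1 - C 2 * M8 0 4 0 0 2 0
    0 2 - C 2 * M8 0 4 0 0 2 0 2 0 - C 2 * M8 0 4 0 0 2 2 0 0 - C 8 * M8 1 1 1 1 0 0 0 4 - C 8 * M8 1 1 1 1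
    0 0 4 0 - C 8 * M8 1 1 1 1 0 4 0 0 - C 8 * M8 1 1 1 1 4 0 0 0 - C 2 * M8 2 0 0 2 0 0 0 4 - C 2 * M8 2 0
    0 2 0 0 4 0 - C 2 * M8 2 0 0 2 0 4 0 0 - C 2 * M8 2 0 0 2 4 0 0 0 - C 2 * M8 2 0 2 0 0 0 0 4 - C 2 * M8
    2 0 2 0 0 0 4 0 - C 2 * M8 2 0 2 0 0 4 0 0 - C 2 * M8 2 0 2 0 4 0 0 0 - C 2 * M8 2 2 0 0 0 0 0 4 - C 2 *
    M8 2 2 0 0 0 0 4 0 - C 2 * M8 2 2 0 0 0 4 0 0 - C 2 * M8 2 2 0 0 4 0 0 0 - C 2 * M8 4 0 0 0 0 0 2 2 - C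
    2 * M8 4 0 0 0 0 2 0 2 - C 2 * M8 4 0 0 0 0 2 2 0 - C 8 * M8 4 0 0 0 1 1 1 1 - C 2 * M8 4 0 0 0 2 0 0 2
    - C 2 * M8 4 0 0 0 2 0 2 0 - C 2 * M8 4 0 0 0 2 2 0 0 := by
  unfold blockA blockB M8
  simp only [map_ofNat]
  ring

lemma ev_AB (h : Good L c) : L (blockA * blockB) =
    16 * mu L ![4, 4, 0, 0, 0, 0, 0, 0] - 96 * mu L ![4, 2, 2, 0, 0, 0, 0, 0] + 144 * mu L ![2, 2, 2, 2, 0,
    0, 0, 0] + 64 * mu L ![1, 1, 1, 1, 1, 1, 1, 1] := by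
  rw [exp_AB]
  simp only [map_add, map_sub, L_C, L_M8]
  have e0 : mu L ![0, 0, 0, 4, 0, 0, 0, 4] = mu L ![4, 4, 0, 0, 0, 0, 0, 0] := mu_eq h (by decide)
  have e1 : mu L ![0, 0, 0, 4, 0, 0, 4, 0] = mu L ![4, 4, 0, 0, 0, 0, 0, 0] := mu_eq h (by decide)
  have e2 : mu L ![0, 0, 0, 4, 0, 4, 0, 0] = mu L ![4, 4, 0, 0, 0, 0, 0, 0] := mu_eq h (by decide)
  have e3 : mu L ![0, 0, 0, 4, 4, 0, 0, 0] = mu L ![4, 4, 0, 0, 0, 0, 0, 0] := mu_eq h (by decide)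
  have e4 : mu L ![0, 0, 2, 2, 0, 0, 2, 2] = mu L ![2, 2, 2, 2, 0, 0, 0, 0] := mu_eq h (by decide)
  have e5 : mu L ![0, 0, 2, 2, 0, 2, 0, 2] = mu L ![2, 2, 2, 2, 0, 0, 0, 0] := mu_eq h (by decide)
  have e6 : mu L ![0, 0, 2, 2, 0, 2, 2, 0] = mu L ![2, 2, 2, 2, 0, 0, 0, 0] := mu_eq h (by decide)
  have e7 : mu L ![0, 0, 2, 2, 1, 1, 1, 1] = 0 := mu_mixed h _ 4 0 (by decide) (by decide)
  have e8 : mu L ![0, 0, 2, 2, 2, 0, 0, 2] = mu L ![2, 2, 2, 2, 0, 0, 0, 0] := mu_eq h (by decide)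
  have e9 : mu L ![0, 0, 2, 2, 2, 0, 2, 0] = mu L ![2, 2, 2, 2, 0, 0, 0, 0] := mu_eq h (by decide)
  have e10 : mu L ![0, 0, 2, 2, 2, 2, 0, 0] = mu L ![2, 2, 2, 2, 0, 0, 0, 0] := mu_eq h (by decide)
  have e11 : mu L ![0, 0, 4, 0, 0, 0, 0, 4] = mu L ![4, 4, 0, 0, 0, 0, 0, 0] := mu_eq h (by decide)
  have e12 : mu L ![0, 0, 4, 0, 0, 0, 4, 0] = mu L ![4, 4, 0, 0, 0, 0, 0, 0] := mu_eq h (by decide)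
  have e13 : mu L ![0, 0, 4, 0, 0, 4, 0, 0] = mu L ![4, 4, 0, 0, 0, 0, 0, 0] := mu_eq h (by decide)
  have e14 : mu L ![0, 0, 4, 0, 4, 0, 0, 0] = mu L ![4, 4, 0, 0, 0, 0, 0, 0] := mu_eq h (by decide)
  have e15 : mu L ![0, 2, 0, 2, 0, 0, 2, 2] = mu L ![2, 2, 2, 2, 0, 0, 0, 0] := mu_eq h (by decide)
  have e16 : mu L ![0, 2, 0, 2, 0, 2, 0, 2] = mu L ![2, 2, 2, 2, 0, 0, 0, 0] := mu_eq h (by decide)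
  have e17 : mu L ![0, 2, 0, 2, 0, 2, 2, 0] = mu L ![2, 2, 2, 2, 0, 0, 0, 0] := mu_eq h (by decide)
  have e18 : mu L ![0, 2, 0, 2, 1, 1, 1, 1] = 0 := mu_mixed h _ 4 0 (by decide) (by decide)
  have e19 : mu L ![0, 2, 0, 2, 2, 0, 0, 2] = mu L ![2, 2, 2, 2, 0, 0, 0, 0] := mu_eq h (by decide)
  have e20 : mu L ![0, 2, 0, 2, 2, 0, 2, 0] = mu L ![2, 2, 2, 2, 0, 0, 0, 0] := mu_eq h (by decide)
  have e21 : mu L ![0, 2, 0, 2, 2, 2, 0, 0] = mu L ![2, 2, 2, 2, 0, 0, 0, 0] := mu_eq h (by decide)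
  have e22 : mu L ![0, 2, 2, 0, 0, 0, 2, 2] = mu L ![2, 2, 2, 2, 0, 0, 0, 0] := mu_eq h (by decide)
  have e23 : mu L ![0, 2, 2, 0, 0, 2, 0, 2] = mu L ![2, 2, 2, 2, 0, 0, 0, 0] := mu_eq h (by decide)
  have e24 : mu L ![0, 2, 2, 0, 0, 2, 2, 0] = mu L ![2, 2, 2, 2, 0, 0, 0, 0] := mu_eq h (by decide)
  have e25 : mu L ![0, 2, 2, 0, 1, 1, 1, 1] = 0 := mu_mixed h _ 4 0 (by decide) (by decide)
  have e26 : mu L ![0, 2, 2, 0, 2, 0, 0, 2] = mu L ![2, 2, 2, 2, 0, 0, 0, 0] := mu_eq h (by decide)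
  have e27 : mu L ![0, 2, 2, 0, 2, 0, 2, 0] = mu L ![2, 2, 2, 2, 0, 0, 0, 0] := mu_eq h (by decide)
  have e28 : mu L ![0, 2, 2, 0, 2, 2, 0, 0] = mu L ![2, 2, 2, 2, 0, 0, 0, 0] := mu_eq h (by decide)
  have e29 : mu L ![0, 4, 0, 0, 0, 0, 0, 4] = mu L ![4, 4, 0, 0, 0, 0, 0, 0] := mu_eq h (by decide)
  have e30 : mu L ![0, 4, 0, 0, 0, 0, 4, 0] = mu L ![4, 4, 0, 0, 0, 0, 0, 0] := mu_eq h (by decide)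
  have e31 : mu L ![0, 4, 0, 0, 0, 4, 0, 0] = mu L ![4, 4, 0, 0, 0, 0, 0, 0] := mu_eq h (by decide)
  have e32 : mu L ![0, 4, 0, 0, 4, 0, 0, 0] = mu L ![4, 4, 0, 0, 0, 0, 0, 0] := mu_eq h (by decide)
  have e33 : mu L ![1, 1, 1, 1, 0, 0, 2, 2] = 0 := mu_mixed h _ 0 4 (by decide) (by decide)
  have e34 : mu L ![1, 1, 1, 1, 0, 2, 0, 2] = 0 := mu_mixed h _ 0 4 (by decide) (by decide)
  have e35 : mu L ![1, 1, 1, 1, 0, 2, 2, 0] = 0 := mu_mixed h _ 0 4 (by decide) (by decide)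
  have e37 : mu L ![1, 1, 1, 1, 2, 0, 0, 2] = 0 := mu_mixed h _ 0 4 (by decide) (by decide)
  have e38 : mu L ![1, 1, 1, 1, 2, 0, 2, 0] = 0 := mu_mixed h _ 0 4 (by decide) (by decide)
  have e39 : mu L ![1, 1, 1, 1, 2, 2, 0, 0] = 0 := mu_mixed h _ 0 4 (by decide) (by decide)
  have e40 : mu L ![2, 0, 0, 2, 0, 0, 2, 2] = mu L ![2, 2, 2, 2, 0, 0, 0, 0] := mu_eq h (by decide)
  have e41 : mu L ![2, 0, 0, 2, 0, 2, 0, 2] = mu L ![2, 2, 2, 2, 0, 0, 0, 0] := mu_eq h (by decide)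
  have e42 : mu L ![2, 0, 0, 2, 0, 2, 2, 0] = mu L ![2, 2, 2, 2, 0, 0, 0, 0] := mu_eq h (by decide)
  have e43 : mu L ![2, 0, 0, 2, 1, 1, 1, 1] = 0 := mu_mixed h _ 4 0 (by decide) (by decide)
  have e44 : mu L ![2, 0, 0, 2, 2, 0, 0, 2] = mu L ![2, 2, 2, 2, 0, 0, 0, 0] := mu_eq h (by decide)
  have e45 : mu L ![2, 0, 0, 2, 2, 0, 2, 0] = mu L ![2, 2, 2, 2, 0, 0, 0, 0] := mu_eq h (by decide)
  have e46 : mu L ![2, 0, 0, 2, 2, 2, 0, 0] = mu L ![2, 2, 2, 2, 0, 0, 0, 0] := mu_eq h (by decide)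
  have e47 : mu L ![2, 0, 2, 0, 0, 0, 2, 2] = mu L ![2, 2, 2, 2, 0, 0, 0, 0] := mu_eq h (by decide)
  have e48 : mu L ![2, 0, 2, 0, 0, 2, 0, 2] = mu L ![2, 2, 2, 2, 0, 0, 0, 0] := mu_eq h (by decide)
  have e49 : mu L ![2, 0, 2, 0, 0, 2, 2, 0] = mu L ![2, 2, 2, 2, 0, 0, 0, 0] := mu_eq h (by decide)
  have e50 : mu L ![2, 0, 2, 0, 1, 1, 1, 1] = 0 := mu_mixed h _ 4 0 (by decide) (by decide)
  have e51 : mu L ![2, 0, 2, 0, 2, 0, 0, 2] = mu L ![2, 2, 2, 2, 0, 0, 0, 0] := mu_eq h (by decide)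
  have e52 : mu L ![2, 0, 2, 0, 2, 0, 2, 0] = mu L ![2, 2, 2, 2, 0, 0, 0, 0] := mu_eq h (by decide)
  have e53 : mu L ![2, 0, 2, 0, 2, 2, 0, 0] = mu L ![2, 2, 2, 2, 0, 0, 0, 0] := mu_eq h (by decide)
  have e54 : mu L ![2, 2, 0, 0, 0, 0, 2, 2] = mu L ![2, 2, 2, 2, 0, 0, 0, 0] := mu_eq h (by decide)
  have e55 : mu L ![2, 2, 0, 0, 0, 2, 0, 2] = mu L ![2, 2, 2, 2, 0, 0, 0, 0] := mu_eq h (by decide)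
  have e56 : mu L ![2, 2, 0, 0, 0, 2, 2, 0] = mu L ![2, 2, 2, 2, 0, 0, 0, 0] := mu_eq h (by decide)
  have e57 : mu L ![2, 2, 0, 0, 1, 1, 1, 1] = 0 := mu_mixed h _ 4 0 (by decide) (by decide)
  have e58 : mu L ![2, 2, 0, 0, 2, 0, 0, 2] = mu L ![2, 2, 2, 2, 0, 0, 0, 0] := mu_eq h (by decide)
  have e59 : mu L ![2, 2, 0, 0, 2, 0, 2, 0] = mu L ![2, 2, 2, 2, 0, 0, 0, 0] := mu_eq h (by decide)
  have e60 : mu L ![2, 2, 0, 0, 2, 2, 0, 0] = mu L ![2, 2, 2, 2, 0, 0, 0, 0] := mu_eq h (by decide)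
  have e61 : mu L ![4, 0, 0, 0, 0, 0, 0, 4] = mu L ![4, 4, 0, 0, 0, 0, 0, 0] := mu_eq h (by decide)
  have e62 : mu L ![4, 0, 0, 0, 0, 0, 4, 0] = mu L ![4, 4, 0, 0, 0, 0, 0, 0] := mu_eq h (by decide)
  have e63 : mu L ![4, 0, 0, 0, 0, 4, 0, 0] = mu L ![4, 4, 0, 0, 0, 0, 0, 0] := mu_eq h (by decide)
  have e64 : mu L ![4, 0, 0, 0, 4, 0, 0, 0] = mu L ![4, 4, 0, 0, 0, 0, 0, 0] := mu_eq h (by decide)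
  have e65 : mu L ![0, 0, 0, 4, 0, 0, 2, 2] = mu L ![4, 2, 2, 0, 0, 0, 0, 0] := mu_eq h (by decide)
  have e66 : mu L ![0, 0, 0, 4, 0, 2, 0, 2] = mu L ![4, 2, 2, 0, 0, 0, 0, 0] := mu_eq h (by decide)
  have e67 : mu L ![0, 0, 0, 4, 0, 2, 2, 0] = mu L ![4, 2, 2, 0, 0, 0, 0, 0] := mu_eq h (by decide)
  have e68 : mu L ![0, 0, 0, 4, 1, 1, 1, 1] = 0 := mu_mixed h _ 4 0 (by decide) (by decide)
  have e69 : mu L ![0, 0, 0, 4, 2, 0, 0, 2] = mu L ![4, 2, 2, 0, 0, 0, 0, 0] := mu_eq h (by decide)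
  have e70 : mu L ![0, 0, 0, 4, 2, 0, 2, 0] = mu L ![4, 2, 2, 0, 0, 0, 0, 0] := mu_eq h (by decide)
  have e71 : mu L ![0, 0, 0, 4, 2, 2, 0, 0] = mu L ![4, 2, 2, 0, 0, 0, 0, 0] := mu_eq h (by decide)
  have e72 : mu L ![0, 0, 2, 2, 0, 0, 0, 4] = mu L ![4, 2, 2, 0, 0, 0, 0, 0] := mu_eq h (by decide)
  have e73 : mu L ![0, 0, 2, 2, 0, 0, 4, 0] = mu L ![4, 2, 2, 0, 0, 0, 0, 0] := mu_eq h (by decide)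
  have e74 : mu L ![0, 0, 2, 2, 0, 4, 0, 0] = mu L ![4, 2, 2, 0, 0, 0, 0, 0] := mu_eq h (by decide)
  have e75 : mu L ![0, 0, 2, 2, 4, 0, 0, 0] = mu L ![4, 2, 2, 0, 0, 0, 0, 0] := mu_eq h (by decide)
  have e76 : mu L ![0, 0, 4, 0, 0, 0, 2, 2] = mu L ![4, 2, 2, 0, 0, 0, 0, 0] := mu_eq h (by decide)
  have e77 : mu L ![0, 0, 4, 0, 0, 2, 0, 2] = mu L ![4, 2, 2, 0, 0, 0, 0, 0] := mu_eq h (by decide)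
  have e78 : mu L ![0, 0, 4, 0, 0, 2, 2, 0] = mu L ![4, 2, 2, 0, 0, 0, 0, 0] := mu_eq h (by decide)
  have e79 : mu L ![0, 0, 4, 0, 1, 1, 1, 1] = 0 := mu_mixed h _ 4 0 (by decide) (by decide)
  have e80 : mu L ![0, 0, 4, 0, 2, 0, 0, 2] = mu L ![4, 2, 2, 0, 0, 0, 0, 0] := mu_eq h (by decide)
  have e81 : mu L ![0, 0, 4, 0, 2, 0, 2, 0] = mu L ![4, 2, 2, 0, 0, 0, 0, 0] := mu_eq h (by decide)
  have e82 : mu L ![0, 0, 4, 0, 2, 2, 0, 0] = mu L ![4, 2, 2, 0, 0, 0, 0, 0] := mu_eq h (by decide)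
  have e83 : mu L ![0, 2, 0, 2, 0, 0, 0, 4] = mu L ![4, 2, 2, 0, 0, 0, 0, 0] := mu_eq h (by decide)
  have e84 : mu L ![0, 2, 0, 2, 0, 0, 4, 0] = mu L ![4, 2, 2, 0, 0, 0, 0, 0] := mu_eq h (by decide)
  have e85 : mu L ![0, 2, 0, 2, 0, 4, 0, 0] = mu L ![4, 2, 2, 0, 0, 0, 0, 0] := mu_eq h (by decide)
  have e86 : mu L ![0, 2, 0, 2, 4, 0, 0, 0] = mu L ![4, 2, 2, 0, 0, 0, 0, 0] := mu_eq h (by decide)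
  have e87 : mu L ![0, 2, 2, 0, 0, 0, 0, 4] = mu L ![4, 2, 2, 0, 0, 0, 0, 0] := mu_eq h (by decide)
  have e88 : mu L ![0, 2, 2, 0, 0, 0, 4, 0] = mu L ![4, 2, 2, 0, 0, 0, 0, 0] := mu_eq h (by decide)
  have e89 : mu L ![0, 2, 2, 0, 0, 4, 0, 0] = mu L ![4, 2, 2, 0, 0, 0, 0, 0] := mu_eq h (by decide)
  have e90 : mu L ![0, 2, 2, 0, 4, 0, 0, 0] = mu L ![4, 2, 2, 0, 0, 0, 0, 0] := mu_eq h (by decide)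
  have e91 : mu L ![0, 4, 0, 0, 0, 0, 2, 2] = mu L ![4, 2, 2, 0, 0, 0, 0, 0] := mu_eq h (by decide)
  have e92 : mu L ![0, 4, 0, 0, 0, 2, 0, 2] = mu L ![4, 2, 2, 0, 0, 0, 0, 0] := mu_eq h (by decide)
  have e93 : mu L ![0, 4, 0, 0, 0, 2, 2, 0] = mu L ![4, 2, 2, 0, 0, 0, 0, 0] := mu_eq h (by decide)
  have e94 : mu L ![0, 4, 0, 0, 1, 1, 1, 1] = 0 := mu_mixed h _ 4 0 (by decide) (by decide)
  have e95 : mu L ![0, 4, 0, 0, 2, 0, 0, 2] = mu L ![4, 2, 2, 0, 0, 0, 0, 0] := mu_eq h (by decide)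
  have e96 : mu L ![0, 4, 0, 0, 2, 0, 2, 0] = mu L ![4, 2, 2, 0, 0, 0, 0, 0] := mu_eq h (by decide)
  have e97 : mu L ![0, 4, 0, 0, 2, 2, 0, 0] = mu L ![4, 2, 2, 0, 0, 0, 0, 0] := mu_eq h (by decide)
  have e98 : mu L ![1, 1, 1, 1, 0, 0, 0, 4] = 0 := mu_mixed h _ 0 4 (by decide) (by decide)
  have e99 : mu L ![1, 1, 1, 1, 0, 0, 4, 0] = 0 := mu_mixed h _ 0 4 (by decide) (by decide)
  have e100 : mu L ![1, 1, 1, 1, 0, 4, 0, 0] = 0 := mu_mixed h _ 0 4 (by decide) (by decide)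
  have e101 : mu L ![1, 1, 1, 1, 4, 0, 0, 0] = 0 := mu_mixed h _ 0 4 (by decide) (by decide)
  have e102 : mu L ![2, 0, 0, 2, 0, 0, 0, 4] = mu L ![4, 2, 2, 0, 0, 0, 0, 0] := mu_eq h (by decide)
  have e103 : mu L ![2, 0, 0, 2, 0, 0, 4, 0] = mu L ![4, 2, 2, 0, 0, 0, 0, 0] := mu_eq h (by decide)
  have e104 : mu L ![2, 0, 0, 2, 0, 4, 0, 0] = mu L ![4, 2, 2, 0, 0, 0, 0, 0] := mu_eq h (by decide)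
  have e105 : mu L ![2, 0, 0, 2, 4, 0, 0, 0] = mu L ![4, 2, 2, 0, 0, 0, 0, 0] := mu_eq h (by decide)
  have e106 : mu L ![2, 0, 2, 0, 0, 0, 0, 4] = mu L ![4, 2, 2, 0, 0, 0, 0, 0] := mu_eq h (by decide)
  have e107 : mu L ![2, 0, 2, 0, 0, 0, 4, 0] = mu L ![4, 2, 2, 0, 0, 0, 0, 0] := mu_eq h (by decide)
  have e108 : mu L ![2, 0, 2, 0, 0, 4, 0, 0] = mu L ![4, 2, 2, 0, 0, 0, 0, 0] := mu_eq h (by decide)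
  have e109 : mu L ![2, 0, 2, 0, 4, 0, 0, 0] = mu L ![4, 2, 2, 0, 0, 0, 0, 0] := mu_eq h (by decide)
  have e110 : mu L ![2, 2, 0, 0, 0, 0, 0, 4] = mu L ![4, 2, 2, 0, 0, 0, 0, 0] := mu_eq h (by decide)
  have e111 : mu L ![2, 2, 0, 0, 0, 0, 4, 0] = mu L ![4, 2, 2, 0, 0, 0, 0, 0] := mu_eq h (by decide)
  have e112 : mu L ![2, 2, 0, 0, 0, 4, 0, 0] = mu L ![4, 2, 2, 0, 0, 0, 0, 0] := mu_eq h (by decide)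
  have e113 : mu L ![2, 2, 0, 0, 4, 0, 0, 0] = mu L ![4, 2, 2, 0, 0, 0, 0, 0] := mu_eq h (by decide)
  have e114 : mu L ![4, 0, 0, 0, 0, 0, 2, 2] = mu L ![4, 2, 2, 0, 0, 0, 0, 0] := mu_eq h (by decide)
  have e115 : mu L ![4, 0, 0, 0, 0, 2, 0, 2] = mu L ![4, 2, 2, 0, 0, 0, 0, 0] := mu_eq h (by decide)
  have e116 : mu L ![4, 0, 0, 0, 0, 2, 2, 0] = mu L ![4, 2, 2, 0, 0, 0, 0, 0] := mu_eq h (by decide)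
  have e117 : mu L ![4, 0, 0, 0, 1, 1, 1, 1] = 0 := mu_mixed h _ 4 0 (by decide) (by decide)
  have e118 : mu L ![4, 0, 0, 0, 2, 0, 0, 2] = mu L ![4, 2, 2, 0, 0, 0, 0, 0] := mu_eq h (by decide)
  have e119 : mu L ![4, 0, 0, 0, 2, 0, 2, 0] = mu L ![4, 2, 2, 0, 0, 0, 0, 0] := mu_eq h (by decide)
  have e120 : mu L ![4, 0, 0, 0, 2, 2, 0, 0] = mu L ![4, 2, 2, 0, 0, 0, 0, 0] := mu_eq h (by decide)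
  simp only [e0, e1, e2, e3, e4, e5, e6, e7, e8, e9, e10, e11, e12, e13, e14, e15, e16, e17, e18, e19, e20, e21, e22,
    e23, e24, e25, e26, e27, e28, e29, e30, e31, e32, e33, e34, e35, e37, e38, e39, e40, e41, e42, e43, e44,
    e45, e46, e47, e48, e49, e50, e51, e52, e53, e54, e55, e56, e57, e58, e59, e60, e61, e62, e63, e64, e65,
    e66, e67, e68, e69, e70, e71, e72, e73, e74, e75, e76, e77, e78, e79, e80, e81, e82, e83, e84, e85, e86,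
    e87, e88, e89, e90, e91, e92, e93, e94, e95, e96, e97, e98, e99, e100, e101, e102, e103, e104, e105,
    e106, e107, e108, e109, e110, e111, e112, e113, e114, e115, e116, e117, e118, e119, e120]
  ring

lemma prod_rel (h : Good L c) : 256 * mu L ![1, 1, 1, 1, 1, 1, 1, 1] = L (blockA * blockB) := by
  rw [← prodA, ← prodB]
  have h1 : mu L ![1, 1, 1, 1, 1, 1, 1, 1] = L (X 0 * X 1 * X 2 * X 3 * X 4 * X 5 * X 6 * X 7) := by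
    unfold mu mon
    simp [Fin.prod_univ_eight]
  rw [h1, ← h.g (X 0 * X 1 * X 2 * X 3 * X 4 * X 5 * X 6 * X 7), ← L_C]
  congr 1
  simp only [map_mul, aeval_X, map_ofNat]
  ring

lemma exp_8 : ((X 0 + X 1) ^ 8 : P8) =
    M8 0 8 0 0 0 0 0 0 + C 8 * M8 1 7 0 0 0 0 0 0 + C 28 * M8 2 6 0 0 0 0 0 0 + C 56 * M8 3 5 0 0 0 0 0 0 +
    C 70 * M8 4 4 0 0 0 0 0 0 + C 56 * M8 5 3 0 0 0 0 0 0 + C 28 * M8 6 2 0 0 0 0 0 0 + C 8 * M8 7 1 0 0 0 0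
    0 0 + M8 8 0 0 0 0 0 0 0 := by
  unfold M8
  simp only [map_ofNat]
  ring

lemma ev_8 (h : Good L c) : L ((X 0 + X 1) ^ 8) =
    2 * mu L ![8, 0, 0, 0, 0, 0, 0, 0] + 56 * mu L ![6, 2, 0, 0, 0, 0, 0, 0] + 70 * mu L ![4, 4, 0, 0, 0, 0,
    0, 0] := by
  rw [exp_8]
  simp only [map_add, L_C, L_M8]
  have e0 : mu L ![0, 8, 0, 0, 0, 0, 0, 0] = mu L ![8, 0, 0, 0, 0, 0, 0, 0] := mu_eq h (by decide)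
  have e1 : mu L ![1, 7, 0, 0, 0, 0, 0, 0] = 0 := mu_mixed h _ 0 7 (by decide) (by decide)
  have e2 : mu L ![2, 6, 0, 0, 0, 0, 0, 0] = mu L ![6, 2, 0, 0, 0, 0, 0, 0] := mu_eq h (by decide)
  have e3 : mu L ![3, 5, 0, 0, 0, 0, 0, 0] = 0 := mu_mixed h _ 0 7 (by decide) (by decide)
  have e5 : mu L ![5, 3, 0, 0, 0, 0, 0, 0] = 0 := mu_mixed h _ 0 7 (by decide) (by decide)
  have e7 : mu L ![7, 1, 0, 0, 0, 0, 0, 0] = 0 := mu_mixed h _ 0 7 (by decide) (by decide)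
  simp only [e0, e1, e2, e3, e5, e7]
  ring

end Pool.Agent.Helper2.E8C
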