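import Pool.Agent.Helper2.E8C.Fun3

/-!
# The functional part: proof of `S_FUN`
-/

set_option autoImplicit false

open MvPolynomial

namespace Pool.Agent.Helper2.E8C

variable {L : P8 →ₗ[ℝ] ℝ} {c : ℝ}

lemma tau (h : Good L c) (i j : ℕ) (hi : Even i) :
    L ((X 0 + X 1) ^ i * (X 0 - X 1) ^ j) = L ((X 2 + X 3) ^ i * (X 0 - X 1) ^ j) := by
  rw [← h.g ((X 0 + X 1) ^ i * (X 0 - X 1) ^ j)]
  congr 1
  have a0 : (gX 0 : P8) = X 0 - C (1 / 2) * (X 0 + X 1 + X 2 + X 3) := rfl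
  have a1 : (gX 1 : P8) = X 1 - C (1 / 2) * (X 0 + X 1 + X 2 + X 3) := rfl
  have h1 : aeval gX (X 0 + X 1 : P8) = -(X 2 + X 3) := by
    rw [map_add, aeval_X, aeval_X, a0, a1]
    linear_combination (-(X 0 + X 1 + X 2 + X 3)) * hC
  have h2 : aeval gX (X 0 - X 1 : P8) = X 0 - X 1 := by
    rw [map_sub, aeval_X, aeval_X, a0, a1]
    ring
  rw [map_mul, map_pow, map_pow, h1, h2, hi.neg_pow]

lemma mu_0 (h : Good L c) : mu L ![0, 0, 0, 0, 0, 0, 0, 0] = 0 := by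
  have : mon ![0, 0, 0, 0, 0, 0, 0, 0] = 1 := by
    unfold mon
    simp [Fin.prod_univ_eight]
  unfold mu
  rw [this]
  exact h.one

lemma mu_2 (h : Good L c) : mu L ![2, 0, 0, 0, 0, 0, 0, 0] = 0 := by
  have h1 := nr_0 h
  rw [mu_0 h] at h1
  linarith

lemma mu_d4 (h : Good L c) : mu L ![4, 0, 0, 0, 0, 0, 0, 0] = 0 ∧ mu L ![2, 2, 0, 0, 0, 0, 0, 0] = 0 := by
  have h1 := nr_2 h
  rw [mu_2 h] at h1
  have h2 := tau h 2 2 (by decide)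
  rw [ev_2_2_U h, ev_2_2_S h] at h2
  constructor <;> linarith

lemma mu_d6 (h : Good L c) : mu L ![6, 0, 0, 0, 0, 0, 0, 0] = 0 ∧ mu L ![4, 2, 0, 0, 0, 0, 0, 0] = 0 ∧
    mu L ![2, 2, 2, 0, 0, 0, 0, 0] = 0 := by
  have h1 := nr_4 h
  have h3 := nr_2_2 h
  rw [(mu_d4 h).1] at h1
  rw [(mu_d4 h).2] at h3
  have h2 := tau h 2 4 (by decide)
  rw [ev_2_4_U h, ev_2_4_S h] at h2
  refine ⟨?_, ?_, ?_⟩ <;> linarith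

lemma mu_d8 (h : Good L c) (h8 : L ((X 0 + X 1) ^ 8) = 0) :
    mu L ![8, 0, 0, 0, 0, 0, 0, 0] = 0 ∧ mu L ![6, 2, 0, 0, 0, 0, 0, 0] = 0 ∧
    mu L ![4, 4, 0, 0, 0, 0, 0, 0] = 0 ∧ mu L ![4, 2, 2, 0, 0, 0, 0, 0] = 0 ∧
    mu L ![2, 2, 2, 2, 0, 0, 0, 0] = 0 ∧ mu L ![1, 1, 1, 1, 1, 1, 1, 1] = 0 := by
  have h1 := nr_6 h
  have h2 := nr_4_2 h
  have h3 := nr_2_2_2 h
  rw [(mu_d6 h).1] at h1
  rw [(mu_d6 h).2.1] at h2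
  rw [(mu_d6 h).2.2] at h3
  have h4 := tau h 4 4 (by decide)
  rw [ev_4_4_U h, ev_4_4_S h] at h4
  have h5 := prod_rel h
  rw [ev_AB h] at h5
  rw [ev_8 h] at h8
  refine ⟨?_, ?_, ?_, ?_, ?_, ?_⟩ <;> linarith

lemma mu_d10 (h : Good L c) (h8 : L ((X 0 + X 1) ^ 8) = 0) :
    mu L ![10, 0, 0, 0, 0, 0, 0, 0] = 0 ∧ mu L ![8, 2, 0, 0, 0, 0, 0, 0] = 0 ∧
    mu L ![6, 4, 0, 0, 0, 0, 0, 0] = 0 ∧ mu L ![6, 2, 2, 0, 0, 0, 0, 0] = 0 ∧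
    mu L ![4, 4, 2, 0, 0, 0, 0, 0] = 0 ∧ mu L ![4, 2, 2, 2, 0, 0, 0, 0] = 0 ∧
    mu L ![2, 2, 2, 2, 2, 0, 0, 0] = 0 ∧ mu L ![3, 1, 1, 1, 1, 1, 1, 1] = 0 := by
  obtain ⟨k1, k2, k3, k4, k5, k6⟩ := mu_d8 h h8
  have h1 := nr_8 h
  have h2 := nr_6_2 h
  have h3 := nr_4_4 h
  have h4 := nr_4_2_2 h
  have h5 := nr_2_2_2_2 h
  have h6 := nr_1_1_1_1_1_1_1_1 h
  rw [k1] at h1
  rw [k2] at h2
  rw [k3] at h3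
  rw [k4] at h4
  rw [k5] at h5
  rw [k6] at h6
  have h7 := tau h 4 6 (by decide)
  rw [ev_4_6_U h, ev_4_6_S h] at h7
  have h9 := tau h 2 8 (by decide)
  rw [ev_2_8_U h, ev_2_8_S h] at h9
  refine ⟨?_, ?_, ?_, ?_, ?_, ?_, ?_, ?_⟩ <;> linarith

lemma enum_lo : ∀ (x3 x4 x5 : Fin 2) (x6 : Fin 3) (x7 : Fin 4), x3.val ≤ x4.val → x4.val ≤ x5.val →
    x5.val ≤ x6.val → x6.val ≤ x7.val → x3.val + x4.val + x5.val + x6.val + x7.val ≤ 3 →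
    [x3.val, x4.val, x5.val, x6.val, x7.val] ∈
      ([[0, 0, 0, 0, 0], [0, 0, 0, 0, 1], [0, 0, 0, 0, 2], [0, 0, 0, 1, 1], [0, 0, 0, 0, 3], [0, 0, 0, 1, 2], [0, 0, 1, 1, 1]] : List (List ℕ)) := by
  decide

lemma enum_hi : ∀ (x3 x4 x5 : Fin 2) (x6 : Fin 3) (x7 : Fin 6), x3.val ≤ x4.val → x4.val ≤ x5.val →
    x5.val ≤ x6.val → x6.val ≤ x7.val → x3.val + x4.val + x5.val + x6.val + x7.val ≤ 5 →
    [x3.val, x4.val, x5.val, x6.val, x7.val] ∈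
      ([[0, 0, 0, 0, 0], [0, 0, 0, 0, 1], [0, 0, 0, 0, 2], [0, 0, 0, 1, 1], [0, 0, 0, 0, 3], [0, 0, 0, 1, 2], [0, 0, 1, 1, 1], [0, 0, 0, 0, 4], [0, 0, 0, 1, 3], [0, 0, 0, 2, 2], [0, 0, 1, 1, 2], [0, 1, 1, 1, 1], [0, 0, 0, 0, 5], [0, 0, 0, 1, 4], [0, 0, 0, 2, 3], [0, 0, 1, 1, 3], [0, 0, 1, 2, 2], [0, 1, 1, 1, 2], [1, 1, 1, 1, 1]] : List (List ℕ)) := by
  decide

lemma sorted_lo (h : Good L c) (b : Fin 8 → ℕ) (x3 x4 x5 x6 x7 : ℕ) (h34 : x3 ≤ x4) (h45 : x4 ≤ x5)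
    (h56 : x5 ≤ x6) (h67 : x6 ≤ x7) (hs : x3 + x4 + x5 + x6 + x7 ≤ 3)
    (hb : b = ![0, 0, 0, 2 * x3, 2 * x4, 2 * x5, 2 * x6, 2 * x7]) : mu L b = 0 := by
  have y3 : x3 < 2 := by omega
  have y4 : x4 < 2 := by omega
  have y5 : x5 < 2 := by omega
  have y6 : x6 < 3 := by omega
  have y7 : x7 < 4 := by omega
  have hm : [x3, x4, x5, x6, x7] ∈ ([[0, 0, 0, 0, 0], [0, 0, 0, 0, 1], [0, 0, 0, 0, 2], [0, 0, 0, 1, 1], [0, 0, 0, 0, 3], [0, 0, 0, 1, 2], [0, 0, 1, 1, 1]] : List (List ℕ)) :=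
    enum_lo ⟨x3, y3⟩ ⟨x4, y4⟩ ⟨x5, y5⟩ ⟨x6, y6⟩ ⟨x7, y7⟩ h34 h45 h56 h67 hs
  clear h34 h45 h56 h67 hs y3 y4 y5 y6 y7
  simp only [List.mem_cons, List.not_mem_nil, or_false, List.cons.injEq, and_true] at hm
  rcases hm with ⟨rfl, rfl, rfl, rfl, rfl⟩ | ⟨rfl, rfl, rfl, rfl, rfl⟩ | ⟨rfl, rfl, rfl, rfl, rfl⟩ | ⟨rfl, rfl, rfl, rfl, rfl⟩ | ⟨rfl, rfl, rfl, rfl, rfl⟩ | ⟨rfl, rfl, rfl, rfl, rfl⟩ | ⟨rfl, rfl, rfl, rfl, rfl⟩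
  · rw [hb, mu_eq h (t := ![0, 0, 0, 0, 0, 0, 0, 0]) (by decide)]; exact mu_0 h
  · rw [hb, mu_eq h (t := ![2, 0, 0, 0, 0, 0, 0, 0]) (by decide)]; exact mu_2 h
  · rw [hb, mu_eq h (t := ![4, 0, 0, 0, 0, 0, 0, 0]) (by decide)]; exact (mu_d4 h).1
  · rw [hb, mu_eq h (t := ![2, 2, 0, 0, 0, 0, 0, 0]) (by decide)]; exact (mu_d4 h).2
  · rw [hb, mu_eq h (t := ![6, 0, 0, 0, 0, 0, 0, 0]) (by decide)]; exact (mu_d6 h).1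
  · rw [hb, mu_eq h (t := ![4, 2, 0, 0, 0, 0, 0, 0]) (by decide)]; exact (mu_d6 h).2.1
  · rw [hb, mu_eq h (t := ![2, 2, 2, 0, 0, 0, 0, 0]) (by decide)]; exact (mu_d6 h).2.2

lemma sorted_hi (h : Good L c) (h8 : L ((X 0 + X 1) ^ 8) = 0) (b : Fin 8 → ℕ) (x3 x4 x5 x6 x7 : ℕ)
    (h34 : x3 ≤ x4) (h45 : x4 ≤ x5)
    (h56 : x5 ≤ x6) (h67 : x6 ≤ x7) (hs : x3 + x4 + x5 + x6 + x7 ≤ 5)
    (hb : b = ![0, 0, 0, 2 * x3, 2 * x4, 2 * x5, 2 * x6, 2 * x7]) : mu L b = 0 := by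
  have y3 : x3 < 2 := by omega
  have y4 : x4 < 2 := by omega
  have y5 : x5 < 2 := by omega
  have y6 : x6 < 3 := by omega
  have y7 : x7 < 6 := by omega
  have hm : [x3, x4, x5, x6, x7] ∈ ([[0, 0, 0, 0, 0], [0, 0, 0, 0, 1], [0, 0, 0, 0, 2], [0, 0, 0, 1, 1], [0, 0, 0, 0, 3], [0, 0, 0, 1, 2], [0, 0, 1, 1, 1], [0, 0, 0, 0, 4], [0, 0, 0, 1, 3], [0, 0, 0, 2, 2], [0, 0, 1, 1, 2], [0, 1, 1, 1, 1], [0, 0, 0, 0, 5], [0, 0, 0, 1, 4], [0, 0, 0, 2, 3], [0, 0, 1, 1, 3], [0, 0, 1, 2, 2], [0, 1, 1, 1, 2], [1, 1, 1, 1, 1]] : List (List ℕ)) :=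
    enum_hi ⟨x3, y3⟩ ⟨x4, y4⟩ ⟨x5, y5⟩ ⟨x6, y6⟩ ⟨x7, y7⟩ h34 h45 h56 h67 hs
  clear h34 h45 h56 h67 hs y3 y4 y5 y6 y7
  simp only [List.mem_cons, List.not_mem_nil, or_false, List.cons.injEq, and_true] at hm
  rcases hm with ⟨rfl, rfl, rfl, rfl, rfl⟩ | ⟨rfl, rfl, rfl, rfl, rfl⟩ | ⟨rfl, rfl, rfl, rfl, rfl⟩ | ⟨rfl, rfl, rfl, rfl, rfl⟩ | ⟨rfl, rfl, rfl, rfl, rfl⟩ | ⟨rfl, rfl, rfl, rfl, rfl⟩ | ⟨rfl, rfl, rfl, rfl, rfl⟩ | ⟨rfl, rfl, rfl, rfl, rfl⟩ | ⟨rfl, rfl, rfl, rfl, rfl⟩ | ⟨rfl, rfl, rfl, rfl, rfl⟩ | ⟨rfl, rfl, rfl, rfl, rfl⟩ | ⟨rfl, rfl, rfl, rfl, rfl⟩ | ⟨rfl, rfl, rfl, rfl, rfl⟩ | ⟨rfl, rfl, rfl, rfl, rfl⟩ | ⟨rfl, rfl, rfl, rfl, rfl⟩ | ⟨rfl, rfl, rfl, rfl, rfl⟩ | ⟨rfl, rfl, rfl, rfl, rfl⟩ | ⟨rfl, rfl, rfl, rfl, rfl⟩ | ⟨rfl, rfl, rfl, rfl, rfl⟩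
  · rw [hb, mu_eq h (t := ![0, 0, 0, 0, 0, 0, 0, 0]) (by decide)]; exact mu_0 h
  · rw [hb, mu_eq h (t := ![2, 0, 0, 0, 0, 0, 0, 0]) (by decide)]; exact mu_2 h
  · rw [hb, mu_eq h (t := ![4, 0, 0, 0, 0, 0, 0, 0]) (by decide)]; exact (mu_d4 h).1
  · rw [hb, mu_eq h (t := ![2, 2, 0, 0, 0, 0, 0, 0]) (by decide)]; exact (mu_d4 h).2
  · rw [hb, mu_eq h (t := ![6, 0, 0, 0, 0, 0, 0, 0]) (by decide)]; exact (mu_d6 h).1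
  · rw [hb, mu_eq h (t := ![4, 2, 0, 0, 0, 0, 0, 0]) (by decide)]; exact (mu_d6 h).2.1
  · rw [hb, mu_eq h (t := ![2, 2, 2, 0, 0, 0, 0, 0]) (by decide)]; exact (mu_d6 h).2.2
  · rw [hb, mu_eq h (t := ![8, 0, 0, 0, 0, 0, 0, 0]) (by decide)]; exact (mu_d8 h h8).1
  · rw [hb, mu_eq h (t := ![6, 2, 0, 0, 0, 0, 0, 0]) (by decide)]; exact (mu_d8 h h8).2.1
  · rw [hb, mu_eq h (t := ![4, 4, 0, 0, 0, 0, 0, 0]) (by decide)]; exact (mu_d8 h h8).2.2.1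
  · rw [hb, mu_eq h (t := ![4, 2, 2, 0, 0, 0, 0, 0]) (by decide)]; exact (mu_d8 h h8).2.2.2.1
  · rw [hb, mu_eq h (t := ![2, 2, 2, 2, 0, 0, 0, 0]) (by decide)]; exact (mu_d8 h h8).2.2.2.2.1
  · rw [hb, mu_eq h (t := ![10, 0, 0, 0, 0, 0, 0, 0]) (by decide)]; exact (mu_d10 h h8).1
  · rw [hb, mu_eq h (t := ![8, 2, 0, 0, 0, 0, 0, 0]) (by decide)]; exact (mu_d10 h h8).2.1
  · rw [hb, mu_eq h (t := ![6, 4, 0, 0, 0, 0, 0, 0]) (by decide)]; exact (mu_d10 h h8).2.2.1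
  · rw [hb, mu_eq h (t := ![6, 2, 2, 0, 0, 0, 0, 0]) (by decide)]; exact (mu_d10 h h8).2.2.2.1
  · rw [hb, mu_eq h (t := ![4, 4, 2, 0, 0, 0, 0, 0]) (by decide)]; exact (mu_d10 h h8).2.2.2.2.1
  · rw [hb, mu_eq h (t := ![4, 2, 2, 2, 0, 0, 0, 0]) (by decide)]; exact (mu_d10 h h8).2.2.2.2.2.1
  · rw [hb, mu_eq h (t := ![2, 2, 2, 2, 2, 0, 0, 0]) (by decide)]; exact (mu_d10 h h8).2.2.2.2.2.2.1

lemma all_sorted (h : Good L c) (N : ℕ)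
    (hN : N ≤ 7 ∨ (N ≤ 11 ∧ L ((X 0 + X 1) ^ 8) = 0)) (b : Fin 8 → ℕ) (b0 b1 b2 b3 b4 b5 b6 b7 : ℕ)
    (hb : b = ![b0, b1, b2, b3, b4, b5, b6, b7])
    (h01 : b0 ≤ b1) (h12 : b1 ≤ b2) (h23 : b2 ≤ b3) (h34 : b3 ≤ b4) (h45 : b4 ≤ b5)
    (h56 : b5 ≤ b6) (h67 : b6 ≤ b7) (hs : b0 + b1 + b2 + b3 + b4 + b5 + b6 + b7 ≤ N) :
    mu L b = 0 := by
  by_cases hmix : ∃ i j : Fin 8, b i % 2 = 1 ∧ b j % 2 = 0
  · obtain ⟨i, j, hi, hj⟩ := hmix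
    exact mu_mixed h b i j hi hj
  have hpar : ∀ i : Fin 8, b i % 2 = b 0 % 2 := by
    intro i
    by_contra hne
    apply hmix
    rcases Nat.mod_two_eq_zero_or_one (b i) with h0 | h0
    · exact ⟨0, i, by omega, h0⟩
    · exact ⟨i, 0, h0, by omega⟩
  have p1 : b1 % 2 = b0 % 2 := by have := hpar 1; rw [hb] at this; exact this
  have p2 : b2 % 2 = b0 % 2 := by have := hpar 2; rw [hb] at this; exact this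
  have p3 : b3 % 2 = b0 % 2 := by have := hpar 3; rw [hb] at this; exact this
  have p4 : b4 % 2 = b0 % 2 := by have := hpar 4; rw [hb] at this; exact this
  have p5 : b5 % 2 = b0 % 2 := by have := hpar 5; rw [hb] at this; exact this
  have p6 : b6 % 2 = b0 % 2 := by have := hpar 6; rw [hb] at this; exact this
  have p7 : b7 % 2 = b0 % 2 := by have := hpar 7; rw [hb] at this; exact this
  clear hpar hmix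
  rcases Nat.mod_two_eq_zero_or_one b0 with h0 | h0
  · have hN11 : N ≤ 11 := by rcases hN with h | h <;> omega
    have c0 : b0 = 0 := by omega
    have c1 : b1 = 0 := by omega
    have c2 : b2 = 0 := by omega
    obtain ⟨x3, hx3⟩ : ∃ x, b3 = 2 * x := ⟨b3 / 2, by omega⟩
    obtain ⟨x4, hx4⟩ : ∃ x, b4 = 2 * x := ⟨b4 / 2, by omega⟩
    obtain ⟨x5, hx5⟩ : ∃ x, b5 = 2 * x := ⟨b5 / 2, by omega⟩
    obtain ⟨x6, hx6⟩ : ∃ x, b6 = 2 * x := ⟨b6 / 2, by omega⟩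
    obtain ⟨x7, hx7⟩ : ∃ x, b7 = 2 * x := ⟨b7 / 2, by omega⟩
    subst c0 c1 c2 hx3 hx4 hx5 hx6 hx7
    rcases hN with hN7 | ⟨_, h8⟩
    · exact sorted_lo h b x3 x4 x5 x6 x7 (by omega) (by omega) (by omega) (by omega) (by omega) hb
    · exact sorted_hi h h8 b x3 x4 x5 x6 x7 (by omega) (by omega) (by omega) (by omega) (by omega) hb
  · have hN11 : N ≤ 11 := by rcases hN with h | h <;> omega
    obtain ⟨x0, hx0⟩ : ∃ x, b0 = 2 * x + 1 := ⟨b0 / 2, by omega⟩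
    obtain ⟨x1, hx1⟩ : ∃ x, b1 = 2 * x + 1 := ⟨b1 / 2, by omega⟩
    obtain ⟨x2, hx2⟩ : ∃ x, b2 = 2 * x + 1 := ⟨b2 / 2, by omega⟩
    obtain ⟨x3, hx3⟩ : ∃ x, b3 = 2 * x + 1 := ⟨b3 / 2, by omega⟩
    obtain ⟨x4, hx4⟩ : ∃ x, b4 = 2 * x + 1 := ⟨b4 / 2, by omega⟩
    obtain ⟨x5, hx5⟩ : ∃ x, b5 = 2 * x + 1 := ⟨b5 / 2, by omega⟩
    obtain ⟨x6, hx6⟩ : ∃ x, b6 = 2 * x + 1 := ⟨b6 / 2, by omega⟩
    obtain ⟨x7, hx7⟩ : ∃ x, b7 = 2 * x + 1 := ⟨b7 / 2, by omega⟩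
    subst hx0 hx1 hx2 hx3 hx4 hx5 hx6 hx7
    clear p1 p2 p3 p4 p5 p6 p7 h0
    have hsum : x0 + x1 + x2 + x3 + x4 + x5 + x6 + x7 ≤ 1 := by omega
    have c0 : x0 = 0 := by omega
    have c1 : x1 = 0 := by omega
    have c2 : x2 = 0 := by omega
    have c3 : x3 = 0 := by omega
    have c4 : x4 = 0 := by omega
    have c5 : x5 = 0 := by omega
    have c6 : x6 = 0 := by omega
    have c7 : x7 = 0 ∨ x7 = 1 := by omega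
    rcases hN with hN7 | ⟨_, h8⟩
    · exfalso
      omega
    · subst c0 c1 c2 c3 c4 c5 c6
      rcases c7 with rfl | rfl
      · rw [hb]
        exact (mu_d8 h h8).2.2.2.2.2
      · rw [hb, mu_eq h (t := ![3, 1, 1, 1, 1, 1, 1, 1]) (by decide)]
        exact (mu_d10 h h8).2.2.2.2.2.2.2

lemma all_mon (h : Good L c) (N : ℕ) (hN : N ≤ 7 ∨ (N ≤ 11 ∧ L ((X 0 + X 1) ^ 8) = 0)) (s : Fin 8 → ℕ)
    (hs : ∑ i, s i ≤ N) : mu L s = 0 := by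
  rw [← mu_comp h (Tuple.sort s) s]
  have hm := Tuple.monotone_sort s
  have hsum : ∑ i, (s ∘ Tuple.sort s) i ≤ N := by
    simp only [Function.comp]
    rwa [Equiv.sum_comp (Tuple.sort s) s]
  rw [Fin.sum_univ_eight] at hsum
  exact all_sorted h N hN _ _ _ _ _ _ _ _ _ (by funext i; fin_cases i <;> rfl) (hm (by decide)) (hm (by decide)) (hm (by decide)) (hm (by decide))
    (hm (by decide)) (hm (by decide)) (hm (by decide)) hsum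

lemma monomial_mon (m : Fin 8 →₀ ℕ) (r : ℝ) : (monomial m r : P8) = r • mon m := by
  rw [monomial_eq, ← smul_eq_C_mul, Finsupp.prod_fintype _ _ (fun i => pow_zero _)]
  rfl

lemma all_poly (h : Good L c) (N : ℕ) (hN : N ≤ 7 ∨ (N ≤ 11 ∧ L ((X 0 + X 1) ^ 8) = 0)) (p : P8)
    (hp : p.totalDegree ≤ N) : L p = 0 := by
  rw [p.as_sum, map_sum]
  refine Finset.sum_eq_zero fun m hm => ?_
  rw [monomial_mon, map_smul]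
  have h1 := le_totalDegree hm
  rw [Finsupp.sum_fintype _ _ (fun i => rfl)] at h1
  have h2 := all_mon h N hN m (h1.trans hp)
  unfold mu at h2
  rw [h2, smul_zero]

theorem t_FUN : S_FUN := by
  intro L c h1 h2 h3 h4 h5
  have h : Good L c := ⟨h1, h2, h3, h4, h5⟩
  exact ⟨fun p hp => all_poly h 7 (Or.inl le_rfl) p hp,
    fun h8 p hp => all_poly h 11 (Or.inr ⟨le_rfl, h8⟩) p hp⟩

end Pool.Agent.Helper2.E8C
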