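import Pool.Agent.Q10.E8.MainB

/-!
# Positive cubature formulas on the shells of `E_8`: statements of the parts

Coordinates are doubled, as in `Pool.Agent.Q10.E8`: `InShell m v` says that `v/2` is a vector of `E_8` of
norm `2 m`; `pr v r` is the inner product of `v/2` and `r/2`; `shell 1` is the set of the 240 roots;
`rootSum v` is the sum of the eighth powers of the inner products with the roots.
-/

set_option autoImplicit false

open MvPolynomial

namespace Pool.Agent.Helper2.E8C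

open Pool.Agent.Q10.E8

/-- change of the signs of the coordinates `i` and `j` -/
def flip (i j : Fin 8) (v : Fin 8 → ℤ) : Fin 8 → ℤ := fun k => if k = i ∨ k = j then - v k else v k

/-- the product of the reflections in `(1/2)(1,1,1,1,1,1,1,1)` and `(1/2)(1,1,1,1,-1,-1,-1,-1)` -/
def gq (v : Fin 8 → ℤ) : Fin 8 → ℤ := fun k =>
  if k.val < 4 then v k - (v 0 + v 1 + v 2 + v 3) / 2 else v k - (v 4 + v 5 + v 6 + v 7) / 2

/-- FORM: the sum of the eighth powers at the vectors `(z, 0, 0)`. -/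
def S_FORM : Prop := ∀ z : Fin 6 → ℤ, (∑ i, z i) % 2 = 0 →
  2 * rootSum ![2 * z 0, 2 * z 1, 2 * z 2, 2 * z 3, 2 * z 4, 2 * z 5, 0, 0] =
    105 * (∑ i, z i ^ 2) ^ 4 - 420 * (∑ i, z i ^ 4) * (∑ i, z i ^ 2) ^ 2 + 420 * (∑ i, z i ^ 4) ^ 2
      + 672 * (∑ i, z i ^ 6) * (∑ i, z i ^ 2) - 720 * (∑ i, z i ^ 8)

/-- SIGNS: the invariant of degree 8 takes both signs on the shells. -/
def S_SIGNS : Prop := ∀ m : ℕ, (m = 4 ∨ 7 ≤ m) →
  (∃ v, InShell m v ∧ rootSum v < 480 * (m : ℤ) ^ 4) ∧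
  (∃ v, InShell m v ∧ 480 * (m : ℤ) ^ 4 < rootSum v)

/-- RM: the lower moments of the roots. -/
def S_RM : Prop := ∀ (m : ℕ) (v : Fin 8 → ℤ), InShell m v →
  ∑ r ∈ shell 1, pr v r ^ 2 = 120 * (m : ℤ) ∧ ∑ r ∈ shell 1, pr v r ^ 4 = 144 * (m : ℤ) ^ 2 ∧
  ∑ r ∈ shell 1, pr v r ^ 6 = 240 * (m : ℤ) ^ 3

/-- CONST: the invariant of degree 8 has constant sign on the shells `1, 2, 3, 5, 6`. -/
def S_CONST : Prop :=
  (∀ (m : ℕ) (v : Fin 8 → ℤ), (m = 1 ∨ m = 3 ∨ m = 5) → InShell m v → 480 * (m : ℤ) ^ 4 < rootSum v) ∧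
  (∀ (m : ℕ) (v : Fin 8 → ℤ), (m = 2 ∨ m = 6) → InShell m v → rootSum v < 480 * (m : ℤ) ^ 4)

/-- AUT: permutations, even sign changes and `gq` are automorphisms of the lattice. -/
def S_AUT : Prop := (∀ σ : Equiv.Perm (Fin 8), IsAut (fun v => v ∘ σ)) ∧
  (∀ i j : Fin 8, i ≠ j → IsAut (flip i j)) ∧ IsAut gq

/-- TRANS: a function which is invariant under permutations, even sign changes and `gq` is constant on
the roots. -/
def S_TRANS : Prop := ∀ T : (Fin 8 → ℤ) → ℝ, (∀ (σ : Equiv.Perm (Fin 8)) v, T (v ∘ σ) = T v) →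
  (∀ i j : Fin 8, i ≠ j → ∀ v, T (flip i j v) = T v) → (∀ v, IsE8 v → T (gq v) = T v) →
  ∀ r ∈ shell 1, T r = T ![2, 2, 0, 0, 0, 0, 0, 0]

/-- the substitution of `gq` in polynomials -/
noncomputable def gX (k : Fin 8) : MvPolynomial (Fin 8) ℝ :=
  if k.val < 4 then X k - C (1 / 2) * (X 0 + X 1 + X 2 + X 3)
  else X k - C (1 / 2) * (X 4 + X 5 + X 6 + X 7)

/-- the substitution of `flip` in polynomials -/
noncomputable def fX (i j k : Fin 8) : MvPolynomial (Fin 8) ℝ := if k = i ∨ k = j then - X k else X k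

/-- FUN: a linear functional which is invariant under permutations, even sign changes and `gq`, and
for which `|x|² - c` acts as zero, vanishes in degree `≤ 7` if `L 1 = 0`, and in degree `≤ 11` if moreover
`L ((x₀ + x₁)^8) = 0`. -/
def S_FUN : Prop := ∀ (L : MvPolynomial (Fin 8) ℝ →ₗ[ℝ] ℝ) (c : ℝ),
  (∀ (σ : Equiv.Perm (Fin 8)) p, L (rename σ p) = L p) →
  (∀ i j : Fin 8, i ≠ j → ∀ p, L (aeval (fX i j) p) = L p) →
  (∀ p, L (aeval gX p) = L p) →
  (∀ p, L ((∑ i, X i ^ 2) * p) = c * L p) → L 1 = 0 →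
  (∀ p : MvPolynomial (Fin 8) ℝ, p.totalDegree ≤ 7 → L p = 0) ∧
  (L ((X 0 + X 1) ^ 8) = 0 → ∀ p : MvPolynomial (Fin 8) ℝ, p.totalDegree ≤ 11 → L p = 0)

end Pool.Agent.Helper2.E8C
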